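import Mathlib

set_option autoImplicit false

open MeasureTheory Filter Topology Set

namespace Pool.Agent.Lib.MP_05553e_gt

variable {E : Type*} [NormedAddCommGroup E] [NormedSpace ℝ E]

/-- A sublinear function `g` with `c ‖x‖ ≤ g x ≤ C ‖x‖`. -/
structure Gf (g : E → ℝ) (c C : ℝ) : Prop where
  cpos : 0 < c
  Cnn : 0 ≤ C
  add_le : ∀ x y, g (x + y) ≤ g x + g y
  smul : ∀ t : ℝ, 0 ≤ t → ∀ x, g (t • x) = t * g x
  lower : ∀ x, c * ‖x‖ ≤ g x
  upper : ∀ x, g x ≤ C * ‖x‖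

namespace Gf

variable {g : E → ℝ} {c C : ℝ}

theorem nonneg (h : Gf g c C) (x : E) : 0 ≤ g x :=
  (mul_nonneg h.cpos.le (norm_nonneg x)).trans (h.lower x)

theorem sub_le (h : Gf g c C) (x y : E) : g x - g y ≤ C * ‖x - y‖ := by
  have h1 := h.add_le (x - y) y
  rw [sub_add_cancel] at h1
  have h2 := h.upper (x - y)
  linarith

theorem abs_sub_le (h : Gf g c C) (x y : E) : |g x - g y| ≤ C * ‖x - y‖ := by
  rw [abs_le]
  constructor
  · have h1 := h.sub_le y x
    rw [norm_sub_rev] at h1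
    linarith
  · exact h.sub_le x y

theorem continuous (h : Gf g c C) : Continuous g := by
  rw [Metric.continuous_iff]
  intro y ε hε
  refine ⟨ε / (C + 1), by have := h.Cnn; positivity, fun x hx => ?_⟩
  rw [Real.dist_eq]
  have h1 := h.abs_sub_le x y
  rw [dist_eq_norm] at hx
  have hC := h.Cnn
  have h2 : C * ‖x - y‖ ≤ (C + 1) * ‖x - y‖ := by
    have := norm_nonneg (x - y)
    nlinarith
  have h3 : (C + 1) * ‖x - y‖ < ε := by
    have h4 : 0 < C + 1 := by linarith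
    calc (C + 1) * ‖x - y‖ < (C + 1) * (ε / (C + 1)) := by
          exact mul_lt_mul_of_pos_left hx h4
      _ = ε := by field_simp
  linarith

theorem zero (h : Gf g c C) : g 0 = 0 := by
  have := h.smul 0 le_rfl 0
  simpa using this

theorem convex_ineq (h : Gf g c C) (x y : E) (t : ℝ) (h0 : 0 ≤ t) (h1 : t ≤ 1) :
    g ((1 - t) • x + t • y) ≤ (1 - t) * g x + t * g y := by
  refine (h.add_le _ _).trans ?_
  rw [h.smul _ (by linarith), h.smul _ h0]

end Gf

/-- Half the square of `g`. -/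
noncomputable def F (g : E → ℝ) (x : E) : ℝ := (g x) ^ 2 / 2

omit [NormedAddCommGroup E] [NormedSpace ℝ E] in
theorem F_nonneg (g : E → ℝ) (x : E) : 0 ≤ F g x := by
  unfold F
  positivity

theorem F_convex {g : E → ℝ} {c C : ℝ} (h : Gf g c C) (x y : E) (t : ℝ) (h0 : 0 ≤ t)
    (h1 : t ≤ 1) : F g ((1 - t) • x + t • y) ≤ (1 - t) * F g x + t * F g y := by
  unfold F
  have h2 := h.convex_ineq x y t h0 h1
  have h3 := h.nonneg ((1 - t) • x + t • y)
  have h4 : g ((1 - t) • x + t • y) ^ 2 ≤ ((1 - t) * g x + t * g y) ^ 2 :=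
    pow_le_pow_left₀ h3 h2 2
  have h5 : 0 ≤ t * (1 - t) * (g x - g y) ^ 2 := by
    have : 0 ≤ 1 - t := by linarith
    positivity
  nlinarith

theorem F_continuous {g : E → ℝ} {c C : ℝ} (h : Gf g c C) : Continuous (F g) := by
  unfold F
  exact (h.continuous.pow 2).div_const 2

/-- The squared Euclidean length of a pair. -/
def q2 (p : ℝ × ℝ) : ℝ := p.1 ^ 2 + p.2 ^ 2

theorem q2_nonneg (p : ℝ × ℝ) : 0 ≤ q2 p := by
  unfold q2
  positivity

theorem q2_eq_zero {p : ℝ × ℝ} (h : q2 p ≤ 0) : p = 0 := by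
  unfold q2 at h
  have h1 : p.1 ^ 2 ≤ 0 := by nlinarith [sq_nonneg p.2]
  have h2 : p.2 ^ 2 ≤ 0 := by nlinarith [sq_nonneg p.1]
  have h3 : p.1 = 0 := by
    have := sq_nonneg p.1
    exact pow_eq_zero_iff (two_ne_zero) |>.1 (le_antisymm h1 this)
  have h4 : p.2 = 0 := by
    have := sq_nonneg p.2
    exact pow_eq_zero_iff (two_ne_zero) |>.1 (le_antisymm h2 this)
  exact Prod.ext h3 h4

theorem norm_sq_le_q2 (p : ℝ × ℝ) : ‖p‖ ^ 2 ≤ q2 p := by
  unfold q2
  rw [Prod.norm_def]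
  rcases max_cases ‖p.1‖ ‖p.2‖ with h | h <;> rw [h.1]
  · rw [Real.norm_eq_abs, sq_abs]
    nlinarith [sq_nonneg p.2]
  · rw [Real.norm_eq_abs, sq_abs]
    nlinarith [sq_nonneg p.1]

/-- The point `y + p.1 • a + p.2 • b`. -/
def shift (a b y : E) (p : ℝ × ℝ) : E := y + p.1 • a + p.2 • b

theorem shift_continuous (a b y : E) : Continuous (shift a b y) := by
  unfold shift
  fun_prop

/-- The proximal objective. -/
noncomputable def J (g : E → ℝ) (a b y : E) (p : ℝ × ℝ) : ℝ := F g (shift a b y p) + q2 p / 2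

theorem J_continuous {g : E → ℝ} {c C : ℝ} (h : Gf g c C) (a b y : E) :
    Continuous (J g a b y) := by
  unfold J
  refine ((F_continuous h).comp (shift_continuous a b y)).add ?_
  unfold q2
  fun_prop

theorem q2_le_J (g : E → ℝ) (a b y : E) (p : ℝ × ℝ) : q2 p / 2 ≤ J g a b y p := by
  unfold J
  have := F_nonneg g (shift a b y p)
  linarith

theorem J_convex {g : E → ℝ} {c C : ℝ} (h : Gf g c C) (a b y : E) (p q : ℝ × ℝ) (t : ℝ)
    (h0 : 0 ≤ t) (h1 : t ≤ 1) :
    J g a b y ((1 - t) • p + t • q) ≤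
      (1 - t) * J g a b y p + t * J g a b y q - t * (1 - t) / 2 * q2 (p - q) := by
  have e1 : shift a b y ((1 - t) • p + t • q) =
      (1 - t) • shift a b y p + t • shift a b y q := by
    unfold shift
    simp only [Prod.fst_add, Prod.smul_fst, smul_eq_mul, Prod.snd_add, Prod.smul_snd]
    module
  have h2 := F_convex h (shift a b y p) (shift a b y q) t h0 h1
  unfold J
  rw [e1]
  unfold q2
  simp only [Prod.fst_add, Prod.smul_fst, smul_eq_mul, Prod.snd_add, Prod.smul_snd, Prod.fst_sub,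
    Prod.snd_sub]
  nlinarith

theorem exists_min {g : E → ℝ} {c C : ℝ} (h : Gf g c C) (a b y : E) :
    ∃ p, ∀ q, J g a b y p ≤ J g a b y q := by
  refine (J_continuous h a b y).exists_forall_le ?_
  have h1 : Tendsto (fun p : ℝ × ℝ => ‖p‖ ^ 2 / 2) (cocompact (ℝ × ℝ)) atTop := by
    have h2 : Tendsto (fun p : ℝ × ℝ => ‖p‖) (cocompact (ℝ × ℝ)) atTop :=
      tendsto_norm_cocompact_atTop
    exact ((tendsto_pow_atTop two_ne_zero).comp h2).atTop_div_const (by norm_num)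
  refine tendsto_atTop_mono (fun p => ?_) h1
  have h2 := norm_sq_le_q2 p
  have h3 := q2_le_J g a b y p
  linarith

/-- The minimiser of the proximal objective (junk value if there is none). -/
noncomputable def argm (g : E → ℝ) (a b y : E) : ℝ × ℝ := by
  classical
  exact if h : ∃ p, ∀ q, J g a b y p ≤ J g a b y q then h.choose else 0

theorem argm_spec {g : E → ℝ} {c C : ℝ} (h : Gf g c C) (a b y : E) (q : ℝ × ℝ) :
    J g a b y (argm g a b y) ≤ J g a b y q := by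
  have h1 := exists_min h a b y
  unfold argm
  rw [dif_pos h1]
  exact h1.choose_spec q

theorem min_quant {g : E → ℝ} {c C : ℝ} (h : Gf g c C) (a b y : E) (p : ℝ × ℝ)
    (hp : ∀ q, J g a b y p ≤ J g a b y q) (q : ℝ × ℝ) :
    J g a b y p + q2 (q - p) / 2 ≤ J g a b y q := by
  have key : ∀ t : ℝ, 0 < t → t ≤ 1 → (1 - t) * (q2 (q - p) / 2) ≤ J g a b y q - J g a b y p := by
    intro t h0 h1
    have h2 := J_convex h a b y p q t h0.le h1
    have h3 := hp ((1 - t) • p + t • q)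
    have h4 : q2 (p - q) = q2 (q - p) := by
      unfold q2
      simp only [Prod.fst_sub, Prod.snd_sub]
      ring
    rw [h4] at h2
    have h5 : t * ((1 - t) * (q2 (q - p) / 2)) ≤ t * (J g a b y q - J g a b y p) := by
      nlinarith
    exact le_of_mul_le_mul_left h5 h0
  have h6 : Tendsto (fun t : ℝ => (1 - t) * (q2 (q - p) / 2)) (𝓝[>] 0)
      (𝓝 ((1 - 0) * (q2 (q - p) / 2))) := by
    refine Tendsto.mono_left ?_ nhdsWithin_le_nhds
    have : Continuous fun t : ℝ => (1 - t) * (q2 (q - p) / 2) := by fun_prop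
    exact this.tendsto 0
  have h7 : (1 - 0) * (q2 (q - p) / 2) ≤ J g a b y q - J g a b y p := by
    refine le_of_tendsto h6 ?_
    have h8 : Ioc (0 : ℝ) 1 ∈ 𝓝[>] (0 : ℝ) := Ioc_mem_nhdsGT one_pos
    filter_upwards [h8] with t ht
    exact key t ht.1 ht.2
  linarith

theorem min_unique {g : E → ℝ} {c C : ℝ} (h : Gf g c C) (a b y : E) (p : ℝ × ℝ)
    (hp : ∀ q, J g a b y p ≤ J g a b y q) : p = argm g a b y := by
  have h1 := min_quant h a b y p hp (argm g a b y)
  have h2 := argm_spec h a b y p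
  have h3 : argm g a b y - p = 0 := q2_eq_zero (by linarith)
  exact (sub_eq_zero.1 h3).symm

/-- The value of `F g` at the proximal point. -/
noncomputable def val (g : E → ℝ) (a b y : E) : ℝ := F g (shift a b y (argm g a b y))

theorem val_nonneg (g : E → ℝ) (a b y : E) : 0 ≤ val g a b y := F_nonneg _ _

theorem val_eq_of_min {g : E → ℝ} {c C : ℝ} (h : Gf g c C) (a b y : E) (p : ℝ × ℝ)
    (hp : ∀ q, J g a b y p ≤ J g a b y q) : val g a b y = F g (shift a b y p) := by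
  unfold val
  rw [← min_unique h a b y p hp]

/-! ### The valuation identity -/

theorem val_aux {g₁ g₂ m M : E → ℝ} {c₁ C₁ c₂ C₂ c₃ C₃ c₄ C₄ : ℝ}
    (h₁ : Gf g₁ c₁ C₁) (h₂ : Gf g₂ c₂ C₂) (hm : Gf m c₃ C₃) (hM : Gf M c₄ C₄)
    (em : ∀ x, m x = min (g₁ x) (g₂ x)) (eM : ∀ x, M x = max (g₁ x) (g₂ x)) (a b y : E)
    (hle : J g₁ a b y (argm g₁ a b y) ≤ J g₂ a b y (argm g₂ a b y)) :
    val m a b y = val g₁ a b y ∧ val M a b y = val g₂ a b y := by
  have Fm : ∀ x, F m x = min (F g₁ x) (F g₂ x) := by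
    intro x
    unfold F
    rw [em]
    have n1 := h₁.nonneg x
    have n2 := h₂.nonneg x
    rcases le_total (g₁ x) (g₂ x) with h | h
    · rw [min_eq_left h, min_eq_left]
      have := pow_le_pow_left₀ n1 h 2
      linarith
    · rw [min_eq_right h, min_eq_right]
      have := pow_le_pow_left₀ n2 h 2
      linarith
  have FM : ∀ x, F M x = max (F g₁ x) (F g₂ x) := by
    intro x
    unfold F
    rw [eM]
    have n1 := h₁.nonneg x
    have n2 := h₂.nonneg x
    rcases le_total (g₁ x) (g₂ x) with h | h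
    · rw [max_eq_right h, max_eq_right]
      have := pow_le_pow_left₀ n1 h 2
      linarith
    · rw [max_eq_left h, max_eq_left]
      have := pow_le_pow_left₀ n2 h 2
      linarith
  have Jm : ∀ q, J m a b y q = min (J g₁ a b y q) (J g₂ a b y q) := by
    intro q
    unfold J
    rw [Fm, min_add_add_right]
  have JM : ∀ q, J M a b y q = max (J g₁ a b y q) (J g₂ a b y q) := by
    intro q
    unfold J
    rw [FM, max_add_add_right]
  set p₁ := argm g₁ a b y with hp₁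
  set p₂ := argm g₂ a b y with hp₂
  have s₁ := argm_spec h₁ a b y
  have s₂ := argm_spec h₂ a b y
  rw [← hp₁] at s₁
  rw [← hp₂] at s₂
  have m1 : J m a b y p₁ ≤ J g₁ a b y p₁ := by
    rw [Jm]
    exact min_le_left _ _
  have m2 : ∀ q, J g₁ a b y p₁ ≤ J m a b y q := by
    intro q
    rw [Jm]
    exact le_min (s₁ q) (hle.trans (s₂ q))
  have minm : ∀ q, J m a b y p₁ ≤ J m a b y q := fun q => m1.trans (m2 q)
  have m3 : J m a b y p₁ = J g₁ a b y p₁ := le_antisymm m1 (m2 p₁)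
  have v1 : val m a b y = val g₁ a b y := by
    rw [val_eq_of_min hm a b y p₁ minm]
    unfold val
    rw [← hp₁]
    unfold J at m3
    linarith
  -- the key inequality
  have key : J g₁ a b y p₂ ≤ J g₂ a b y p₂ := by
    by_contra hcon
    push Not at hcon
    have hne : p₂ - p₁ ≠ 0 := by
      intro h0
      have : p₂ = p₁ := sub_eq_zero.1 h0
      rw [this] at hcon hle
      linarith
    have hq : 0 < q2 (p₂ - p₁) := by
      by_contra h0
      push Not at h0
      exact hne (q2_eq_zero h0)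
    have hc : Continuous fun t : ℝ => J g₁ a b y ((1 - t) • p₂ + t • p₁) -
        J g₂ a b y ((1 - t) • p₂ + t • p₁) := by
      refine ((J_continuous h₁ a b y).comp ?_).sub ((J_continuous h₂ a b y).comp ?_) <;> fun_prop
    have hpos : ∀ᶠ t : ℝ in 𝓝[>] 0, 0 < J g₁ a b y ((1 - t) • p₂ + t • p₁) -
        J g₂ a b y ((1 - t) • p₂ + t • p₁) := by
      refine nhdsWithin_le_nhds ?_
      refine (hc.tendsto 0).eventually_const_lt ?_
      simp only [sub_zero, one_smul, zero_smul, add_zero]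
      linarith
    have hI : Ioo (0 : ℝ) 1 ∈ 𝓝[>] (0 : ℝ) := Ioo_mem_nhdsGT one_pos
    obtain ⟨t, ht1, ht2⟩ := (hpos.and hI).exists
    have e1 := J_convex hm a b y p₂ p₁ t ht2.1.le ht2.2.le
    have e2 : J m a b y ((1 - t) • p₂ + t • p₁) = J g₂ a b y ((1 - t) • p₂ + t • p₁) := by
      rw [Jm, min_eq_right]
      linarith
    have e3 : J m a b y p₂ = J g₂ a b y p₂ := by
      rw [Jm, min_eq_right hcon.le]
    have e4 := s₂ ((1 - t) • p₂ + t • p₁)
    have e5 := minm p₂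
    rw [e2, e3] at e1
    rw [e3] at e5
    have e6 : 0 < t * (1 - t) / 2 * q2 (p₂ - p₁) := by
      have h1 : 0 < t := ht2.1
      have h2 : 0 < 1 - t := by linarith [ht2.2]
      positivity
    have e7 : t * J m a b y p₁ ≤ t * J g₂ a b y p₂ :=
      mul_le_mul_of_nonneg_left e5 ht2.1.le
    nlinarith
  have M1 : J M a b y p₂ = J g₂ a b y p₂ := by
    rw [JM, max_eq_right key]
  have minM : ∀ q, J M a b y p₂ ≤ J M a b y q := by
    intro q
    rw [M1, JM]
    exact (s₂ q).trans (le_max_right _ _)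
  refine ⟨v1, ?_⟩
  rw [val_eq_of_min hM a b y p₂ minM]
  unfold val
  rw [← hp₂]
  unfold J at M1
  linarith

theorem val_valuation {g₁ g₂ m M : E → ℝ} {c₁ C₁ c₂ C₂ c₃ C₃ c₄ C₄ : ℝ}
    (h₁ : Gf g₁ c₁ C₁) (h₂ : Gf g₂ c₂ C₂) (hm : Gf m c₃ C₃) (hM : Gf M c₄ C₄)
    (em : ∀ x, m x = min (g₁ x) (g₂ x)) (eM : ∀ x, M x = max (g₁ x) (g₂ x)) (a b y : E)
    (φ : ℝ → ℝ) :
    φ (val m a b y) + φ (val M a b y) = φ (val g₁ a b y) + φ (val g₂ a b y) := by
  rcases le_total (J g₁ a b y (argm g₁ a b y)) (J g₂ a b y (argm g₂ a b y)) with h | h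
  · obtain ⟨e1, e2⟩ := val_aux h₁ h₂ hm hM em eM a b y h
    rw [e1, e2]
  · obtain ⟨e1, e2⟩ := val_aux h₂ h₁ hm hM (fun x => by rw [em, min_comm])
      (fun x => by rw [eM, max_comm]) a b y h
    rw [e1, e2, add_comm]

/-! ### Growth -/

theorem argm_bound {g : E → ℝ} {c C : ℝ} (h : Gf g c C) (a b y : E) :
    q2 (argm g a b y) ≤ g (shift a b y (argm g a b y)) *
      g (-((argm g a b y).1 • a + (argm g a b y).2 • b)) := by
  set p := argm g a b y with hp
  set x := shift a b y p with hx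
  set d := -(p.1 • a + p.2 • b) with hd
  have key : ∀ t : ℝ, 0 < t → t ≤ 1 →
      (1 - t / 2) * q2 p ≤ g x * g d + t * (g d) ^ 2 / 2 := by
    intro t h0 h1
    have h2 := argm_spec h a b y ((1 - t) • p)
    rw [← hp] at h2
    unfold J at h2
    rw [← hx] at h2
    have e1 : shift a b y ((1 - t) • p) = x + t • d := by
      rw [hx, hd]
      unfold shift
      simp only [Prod.smul_fst, smul_eq_mul, Prod.smul_snd]
      module
    have e2 : q2 ((1 - t) • p) = (1 - t) ^ 2 * q2 p := by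
      unfold q2
      simp only [Prod.smul_fst, smul_eq_mul, Prod.smul_snd]
      ring
    rw [e1, e2] at h2
    have h3 : g (x + t • d) ≤ g x + t * g d := by
      refine (h.add_le _ _).trans ?_
      rw [h.smul _ h0.le]
    have h4 : g (x + t • d) ^ 2 ≤ (g x + t * g d) ^ 2 :=
      pow_le_pow_left₀ (h.nonneg _) h3 2
    unfold F at h2
    have h5 : t * ((1 - t / 2) * q2 p) ≤ t * (g x * g d + t * (g d) ^ 2 / 2) := by
      nlinarith
    exact le_of_mul_le_mul_left h5 h0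
  have l1 : Tendsto (fun t : ℝ => (1 - t / 2) * q2 p) (𝓝[>] 0) (𝓝 ((1 - 0 / 2) * q2 p)) := by
    refine Tendsto.mono_left ?_ nhdsWithin_le_nhds
    have : Continuous fun t : ℝ => (1 - t / 2) * q2 p := by fun_prop
    exact this.tendsto 0
  have l2 : Tendsto (fun t : ℝ => g x * g d + t * (g d) ^ 2 / 2) (𝓝[>] 0)
      (𝓝 (g x * g d + 0 * (g d) ^ 2 / 2)) := by
    refine Tendsto.mono_left ?_ nhdsWithin_le_nhds
    have : Continuous fun t : ℝ => g x * g d + t * (g d) ^ 2 / 2 := by fun_prop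
    exact this.tendsto 0
  have l3 : (1 - 0 / 2) * q2 p ≤ g x * g d + 0 * (g d) ^ 2 / 2 := by
    refine le_of_tendsto_of_tendsto l1 l2 ?_
    have h8 : Ioc (0 : ℝ) 1 ∈ 𝓝[>] (0 : ℝ) := Ioc_mem_nhdsGT one_pos
    filter_upwards [h8] with t ht
    exact key t ht.1 ht.2
  simpa using l3

theorem norm_dir_le (a b : E) (p : ℝ × ℝ) : ‖p.1 • a + p.2 • b‖ ≤ (‖a‖ + ‖b‖) * ‖p‖ := by
  have h1 : ‖p.1‖ ≤ ‖p‖ := norm_fst_le p
  have h2 : ‖p.2‖ ≤ ‖p‖ := norm_snd_le p
  calc ‖p.1 • a + p.2 • b‖ ≤ ‖p.1 • a‖ + ‖p.2 • b‖ := norm_add_le _ _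
    _ = ‖p.1‖ * ‖a‖ + ‖p.2‖ * ‖b‖ := by rw [norm_smul, norm_smul]
    _ ≤ ‖p‖ * ‖a‖ + ‖p‖ * ‖b‖ := by gcongr
    _ = (‖a‖ + ‖b‖) * ‖p‖ := by ring

/-- The growth constant. -/
noncomputable def kap (c C : ℝ) (a b : E) : ℝ := 1 / (1 / c + C * (‖a‖ + ‖b‖) ^ 2)

omit [NormedSpace ℝ E] in
theorem kap_pos {c C : ℝ} (hc : 0 < c) (hC : 0 ≤ C) (a b : E) : 0 < kap c C a b := by
  unfold kap
  positivity

theorem val_growth {g : E → ℝ} {c C : ℝ} (h : Gf g c C) (a b y : E) :
    (kap c C a b * ‖y‖) ^ 2 / 2 ≤ val g a b y := by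
  set p := argm g a b y with hp
  set x := shift a b y p with hx
  have h1 := argm_bound h a b y
  rw [← hp, ← hx] at h1
  have hd : g (-(p.1 • a + p.2 • b)) ≤ C * ((‖a‖ + ‖b‖) * ‖p‖) := by
    refine (h.upper _).trans ?_
    rw [norm_neg]
    exact mul_le_mul_of_nonneg_left (norm_dir_le a b p) h.Cnn
  have hgx := h.nonneg x
  have h2 : ‖p‖ ≤ C * (‖a‖ + ‖b‖) * g x := by
    rcases eq_or_lt_of_le (norm_nonneg p) with h0 | h0
    · rw [← h0]
      have := h.Cnn
      positivity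
    · have h3 : ‖p‖ * ‖p‖ ≤ ‖p‖ * (C * (‖a‖ + ‖b‖) * g x) := by
        have h4 := norm_sq_le_q2 p
        have h5 : g x * g (-(p.1 • a + p.2 • b)) ≤ g x * (C * ((‖a‖ + ‖b‖) * ‖p‖)) :=
          mul_le_mul_of_nonneg_left hd hgx
        nlinarith
      exact le_of_mul_le_mul_left h3 h0
  have h3 : ‖y‖ ≤ g x * (1 / c + C * (‖a‖ + ‖b‖) ^ 2) := by
    have e1 : y = x + -(p.1 • a + p.2 • b) := by
      rw [hx]
      unfold shift
      module
    have h4 : ‖y‖ ≤ ‖x‖ + (‖a‖ + ‖b‖) * ‖p‖ := by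
      calc ‖y‖ = ‖x + -(p.1 • a + p.2 • b)‖ := by rw [← e1]
        _ ≤ ‖x‖ + ‖-(p.1 • a + p.2 • b)‖ := norm_add_le _ _
        _ ≤ ‖x‖ + (‖a‖ + ‖b‖) * ‖p‖ := by
            rw [norm_neg]
            gcongr
            exact norm_dir_le a b p
    have h5 : ‖x‖ ≤ g x / c := by
      rw [le_div_iff₀ h.cpos]
      have := h.lower x
      linarith
    have h6 : (‖a‖ + ‖b‖) * ‖p‖ ≤ (‖a‖ + ‖b‖) * (C * (‖a‖ + ‖b‖) * g x) :=
      mul_le_mul_of_nonneg_left h2 (by positivity)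
    calc ‖y‖ ≤ g x / c + (‖a‖ + ‖b‖) * (C * (‖a‖ + ‖b‖) * g x) := by linarith
      _ = g x * (1 / c + C * (‖a‖ + ‖b‖) ^ 2) := by ring
  have hpos : 0 < 1 / c + C * (‖a‖ + ‖b‖) ^ 2 := by
    have := h.cpos
    have := h.Cnn
    positivity
  have h4 : kap c C a b * ‖y‖ ≤ g x := by
    unfold kap
    rw [one_div, inv_mul_le_iff₀ hpos]
    linarith
  have h5 : 0 ≤ kap c C a b * ‖y‖ :=
    mul_nonneg (kap_pos h.cpos h.Cnn a b).le (norm_nonneg y)
  have h6 := pow_le_pow_left₀ h5 h4 2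
  unfold val F
  rw [← hp, ← hx]
  linarith

end Pool.Agent.Lib.MP_05553e_gt
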