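import Mathlib
import Pool.Agent.Lib.MP_05553e_gt.Prox

set_option autoImplicit false

open MeasureTheory Filter Topology Set

namespace Pool.Agent.Lib.MP_05553e_gt

section norm

variable {E : Type*} [NormedAddCommGroup E] [NormedSpace ℝ E]

/-- Multiplicative closeness of two functions. -/
def Close (ε : ℝ) (g g' : E → ℝ) : Prop :=
  ∀ x, g' x ≤ (1 + ε) * g x ∧ g x ≤ (1 + ε) * g' x

theorem Gf.of_close {g g' : E → ℝ} {c C c' C' ε : ℝ} (h : Gf g c C) (h' : Gf g' c' C')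
    (hε : Close ε g g') (h1 : ε ≤ 1) : Gf g' (c / 2) (2 * C) where
  cpos := by have := h.cpos; positivity
  Cnn := by have := h.Cnn; positivity
  add_le := h'.add_le
  smul := h'.smul
  lower x := by
    have h2 := (hε x).2
    have h3 := h.lower x
    have h4 := h'.nonneg x
    nlinarith
  upper x := by
    have h2 := (hε x).1
    have h3 := h.upper x
    have h4 := h.nonneg x
    nlinarith

/-- The modulus of closeness of the two values. -/
noncomputable def eta (C D ε δ : ℝ) : ℝ := ((1 + ε) ^ 2 - 1) * (C ^ 2 * D ^ 2 / 2) + C ^ 2 * D * δ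

theorem F_close {g g' : E → ℝ} {c C c' C' ε : ℝ} (h : Gf g c C) (h' : Gf g' c' C')
    (hε : Close ε g g') (h0 : 0 ≤ ε) (D δ : ℝ) (z z' : E) (hz : ‖z‖ ≤ D) (hz' : ‖z'‖ ≤ D)
    (hzz : ‖z' - z‖ ≤ δ) : |F g' z' - F g z| ≤ eta C D ε δ := by
  have hC := h.Cnn
  have hD : 0 ≤ D := (norm_nonneg z).trans hz
  have hδ : 0 ≤ δ := (norm_nonneg _).trans hzz
  have n1 := h.nonneg z'
  have n2 := h'.nonneg z'
  have n3 := h.nonneg z
  obtain ⟨e1, e2⟩ := hε z'
  have u1 : g z' ≤ C * D := (h.upper z').trans (by gcongr)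
  have u2 : g z ≤ C * D := (h.upper z).trans (by gcongr)
  have u3 : |g z' - g z| ≤ C * δ := (h.abs_sub_le z' z).trans (by gcongr)
  -- first part
  have p1 : |g' z' ^ 2 - g z' ^ 2| ≤ ((1 + ε) ^ 2 - 1) * g z' ^ 2 := by
    rw [abs_le]
    have s1 : g' z' ^ 2 ≤ ((1 + ε) * g z') ^ 2 := pow_le_pow_left₀ n2 e1 2
    have s2 : g z' ^ 2 ≤ ((1 + ε) * g' z') ^ 2 := pow_le_pow_left₀ n1 e2 2
    constructor
    · have k1 : 0 ≤ ((1 + ε) ^ 2 - 1) := by nlinarith
      have k2 : 0 < (1 + ε) ^ 2 := by positivity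
      have k3 : g z' ^ 2 ≤ (1 + ε) ^ 2 * g' z' ^ 2 := by nlinarith
      have k4 : 0 ≤ ((1 + ε) ^ 2 - 1) ^ 2 * g z' ^ 2 := by positivity
      have k5 : (1 + ε) ^ 2 * (-(((1 + ε) ^ 2 - 1) * g z' ^ 2)) ≤
          (1 + ε) ^ 2 * (g' z' ^ 2 - g z' ^ 2) := by
        nlinarith
      exact le_of_mul_le_mul_left k5 k2
    · nlinarith
  have p2 : |g z' ^ 2 - g z ^ 2| ≤ 2 * (C ^ 2 * D * δ) := by
    have e3 : g z' ^ 2 - g z ^ 2 = (g z' - g z) * (g z' + g z) := by ring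
    rw [e3, abs_mul, abs_of_nonneg (add_nonneg n1 n3)]
    calc |g z' - g z| * (g z' + g z) ≤ (C * δ) * (C * D + C * D) := by
          apply mul_le_mul u3 (by linarith) (by positivity) (by positivity)
      _ = 2 * (C ^ 2 * D * δ) := by ring
  have p3 : ((1 + ε) ^ 2 - 1) * g z' ^ 2 ≤ ((1 + ε) ^ 2 - 1) * (C * D) ^ 2 := by
    have k1 : 0 ≤ ((1 + ε) ^ 2 - 1) := by nlinarith
    have := pow_le_pow_left₀ n1 u1 2
    exact mul_le_mul_of_nonneg_left this k1
  have e4 : F g' z' - F g z = ((g' z' ^ 2 - g z' ^ 2) + (g z' ^ 2 - g z ^ 2)) / 2 := by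
    unfold F
    ring
  rw [e4, abs_div, abs_of_pos (two_pos : (0 : ℝ) < 2)]
  have p4 := abs_add_le (g' z' ^ 2 - g z' ^ 2) (g z' ^ 2 - g z ^ 2)
  unfold eta
  rw [div_le_iff₀ two_pos]
  nlinarith

theorem shift_sub (a b y y' : E) (p : ℝ × ℝ) : shift a b y' p - shift a b y p = y' - y := by
  unfold shift
  module

theorem norm_shift_le (a b y : E) (p : ℝ × ℝ) : ‖shift a b y p‖ ≤ ‖y‖ + (‖a‖ + ‖b‖) * ‖p‖ := by
  have h := norm_dir_le a b p
  have e : shift a b y p = y + (p.1 • a + p.2 • b) := by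
    unfold shift
    module
  rw [e]
  exact (norm_add_le _ _).trans (by linarith)

theorem argm_norm_le {g : E → ℝ} {c C : ℝ} (h : Gf g c C) (a b y : E) :
    ‖argm g a b y‖ ≤ C * ‖y‖ := by
  have h1 := norm_sq_le_q2 (argm g a b y)
  have h2 := q2_le_J g a b y (argm g a b y)
  have h3 := argm_spec h a b y 0
  have h4 : J g a b y 0 = g y ^ 2 / 2 := by
    unfold J F shift q2
    simp
  rw [h4] at h3
  have h5 := h.upper y
  have h6 := h.nonneg y
  have h7 := pow_le_pow_left₀ h6 h5 2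
  have h8 : ‖argm g a b y‖ ^ 2 ≤ (C * ‖y‖) ^ 2 := by linarith
  exact le_of_sq_le_sq h8 (mul_nonneg h.Cnn (norm_nonneg y))

theorem argm_close {g g' : E → ℝ} {c C c' C' ε : ℝ} (h : Gf g c C) (h' : Gf g' c' C')
    (hε : Close ε g g') (h0 : 0 ≤ ε) (h1 : ε ≤ 1) (a b y y' : E) (D : ℝ)
    (hy : ‖y‖ + (‖a‖ + ‖b‖) * (2 * C * ‖y‖) + (‖a‖ + ‖b‖) * (2 * C * ‖y'‖) ≤ D)
    (hy' : ‖y'‖ + (‖a‖ + ‖b‖) * (2 * C * ‖y'‖) + (‖a‖ + ‖b‖) * (2 * C * ‖y‖) ≤ D) :
    q2 (argm g' a b y' - argm g a b y) ≤ 2 * eta C D ε ‖y' - y‖ ∧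
    |val g' a b y' - F g (shift a b y (argm g' a b y'))| ≤ eta C D ε ‖y' - y‖ := by
  set p := argm g a b y with hp
  set p' := argm g' a b y' with hp'
  have hC := h.Cnn
  have g2 := Gf.of_close h h' hε h1
  have b1 : ‖p‖ ≤ 2 * C * ‖y‖ := by
    have := argm_norm_le h a b y
    rw [← hp] at this
    have h3 : 0 ≤ C * ‖y‖ := by positivity
    linarith
  have b2 : ‖p'‖ ≤ 2 * C * ‖y'‖ := argm_norm_le g2 a b y'
  have nab : 0 ≤ ‖a‖ + ‖b‖ := by positivity
  have c1 : (‖a‖ + ‖b‖) * ‖p‖ ≤ (‖a‖ + ‖b‖) * (2 * C * ‖y‖) := by gcongr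
  have c2 : (‖a‖ + ‖b‖) * ‖p'‖ ≤ (‖a‖ + ‖b‖) * (2 * C * ‖y'‖) := by gcongr
  have c3 : 0 ≤ (‖a‖ + ‖b‖) * (2 * C * ‖y‖) := by positivity
  have c4 : 0 ≤ (‖a‖ + ‖b‖) * (2 * C * ‖y'‖) := by positivity
  have d1 : ‖shift a b y p‖ ≤ D := (norm_shift_le a b y p).trans (by linarith)
  have d2 : ‖shift a b y p'‖ ≤ D := (norm_shift_le a b y p').trans (by linarith)
  have d3 : ‖shift a b y' p‖ ≤ D := (norm_shift_le a b y' p).trans (by linarith)
  have d4 : ‖shift a b y' p'‖ ≤ D := (norm_shift_le a b y' p').trans (by linarith)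
  have f1 := F_close h h' hε h0 D ‖y' - y‖ (shift a b y p) (shift a b y' p) d1 d3
    (by rw [shift_sub])
  have f2 := F_close h h' hε h0 D ‖y' - y‖ (shift a b y p') (shift a b y' p') d2 d4
    (by rw [shift_sub])
  have m1 := min_quant h a b y p (argm_spec h a b y) p'
  have m2 := min_quant g2 a b y' p' (argm_spec g2 a b y') p
  have e : q2 (p - p') = q2 (p' - p) := by
    unfold q2
    simp only [Prod.fst_sub, Prod.snd_sub]
    ring
  rw [e] at m2
  unfold J at m1 m2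
  rw [abs_le] at f1 f2
  refine ⟨by linarith, ?_⟩
  rw [abs_le]
  unfold val
  rw [← hp']
  exact f2

theorem eta_tendsto {ι : Type*} {l : Filter ι} (C D : ℝ) (ε δ : ι → ℝ) (h1 : Tendsto ε l (𝓝 0))
    (h2 : Tendsto δ l (𝓝 0)) : Tendsto (fun i => eta C D (ε i) (δ i)) l (𝓝 0) := by
  have h : Continuous fun p : ℝ × ℝ => eta C D p.1 p.2 := by
    unfold eta
    fun_prop
  have h3 := (h.tendsto (0, 0)).comp (h1.prodMk_nhds h2)
  have h4 : eta C D 0 0 = 0 := by
    unfold eta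
    ring
  simp only [h4] at h3
  exact h3

theorem tendsto_val {ι : Type*} {l : Filter ι} {g : E → ℝ} {c C : ℝ} (h : Gf g c C)
    (G : ι → E → ℝ) (hG : ∀ i, ∃ c' C', Gf (G i) c' C') (ε : ι → ℝ)
    (hε0 : ∀ᶠ i in l, 0 ≤ ε i)
    (hε : Tendsto ε l (𝓝 0)) (hcl : ∀ᶠ i in l, Close (ε i) g (G i)) (Y : ι → E) (y a b : E)
    (hY : Tendsto Y l (𝓝 y)) : Tendsto (fun i => val (G i) a b (Y i)) l (𝓝 (val g a b y)) := by
  have hC := h.Cnn
  set D : ℝ := (‖y‖ + 1) + (‖a‖ + ‖b‖) * (2 * C * (‖y‖ + 1)) +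
    (‖a‖ + ‖b‖) * (2 * C * (‖y‖ + 1)) with hD
  have hev : ∀ᶠ i in l, ‖Y i‖ ≤ ‖y‖ + 1 := by
    have : Tendsto (fun i => ‖Y i‖) l (𝓝 ‖y‖) := hY.norm
    filter_upwards [this.eventually_le_const (show ‖y‖ < ‖y‖ + 1 by linarith)] with i hi using hi
  have hev1 : ∀ᶠ i in l, ε i ≤ 1 := hε.eventually_le_const one_pos
  have hδ : Tendsto (fun i => ‖Y i - y‖) l (𝓝 0) := by
    have := (hY.sub_const y).norm
    simpa using this
  have het := eta_tendsto C D ε (fun i => ‖Y i - y‖) hε hδ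
  have key : ∀ᶠ i in l, q2 (argm (G i) a b (Y i) - argm g a b y) ≤ 2 * eta C D (ε i) ‖Y i - y‖ ∧
      |val (G i) a b (Y i) - F g (shift a b y (argm (G i) a b (Y i)))| ≤
        eta C D (ε i) ‖Y i - y‖ := by
    filter_upwards [hev, hev1, hε0, hcl] with i h2 h3 h4 h5
    obtain ⟨c', C', hg⟩ := hG i
    refine argm_close h hg h5 h4 h3 a b y (Y i) D ?_ ?_
    · have e1 : ‖y‖ ≤ ‖y‖ + 1 := by linarith
      rw [hD]
      gcongr
    · have e1 : ‖y‖ ≤ ‖y‖ + 1 := by linarith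
      rw [hD]
      gcongr
  -- convergence of the minimisers
  have hq : Tendsto (fun i => q2 (argm (G i) a b (Y i) - argm g a b y)) l (𝓝 0) := by
    have h2 : Tendsto (fun i => 2 * eta C D (ε i) ‖Y i - y‖) l (𝓝 0) := by
      simpa using het.const_mul 2
    refine tendsto_of_tendsto_of_tendsto_of_le_of_le' tendsto_const_nhds h2 ?_ ?_
    · exact Eventually.of_forall fun i => q2_nonneg _
    · exact key.mono fun i hi => hi.1
  have hp : Tendsto (fun i => argm (G i) a b (Y i)) l (𝓝 (argm g a b y)) := by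
    rw [tendsto_iff_norm_sub_tendsto_zero]
    have h2 : Tendsto (fun i => ‖argm (G i) a b (Y i) - argm g a b y‖ ^ 2) l (𝓝 0) :=
      tendsto_of_tendsto_of_tendsto_of_le_of_le tendsto_const_nhds hq
        (fun i => by positivity) (fun i => norm_sq_le_q2 _)
    have h3 := (Real.continuous_sqrt.tendsto 0).comp h2
    simp only [Real.sqrt_zero] at h3
    refine h3.congr fun i => ?_
    simp [Function.comp]
  have hF : Tendsto (fun i => F g (shift a b y (argm (G i) a b (Y i)))) l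
      (𝓝 (F g (shift a b y (argm g a b y)))) :=
    (((F_continuous h).comp (shift_continuous a b y)).tendsto _).comp hp
  have hdiff : Tendsto (fun i => val (G i) a b (Y i) - F g (shift a b y (argm (G i) a b (Y i)))) l
      (𝓝 0) := by
    rw [tendsto_zero_iff_abs_tendsto_zero]
    refine tendsto_of_tendsto_of_tendsto_of_le_of_le' tendsto_const_nhds het ?_ ?_
    · exact Eventually.of_forall fun i => abs_nonneg _
    · exact key.mono fun i hi => hi.2
  have hsum := hdiff.add hF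
  simp only [sub_add_cancel, zero_add] at hsum
  exact hsum

theorem val_continuous {g : E → ℝ} {c C : ℝ} (h : Gf g c C) (a b : E) :
    Continuous (val g a b) := by
  rw [continuous_iff_continuousAt]
  intro y
  have := tendsto_val (l := 𝓝 y) h (fun _ => g) (fun _ => ⟨c, C, h⟩) (fun _ => 0)
    (Eventually.of_forall fun _ => le_rfl) tendsto_const_nhds
    (Eventually.of_forall fun _ x => by simp) (fun z => z) y a b tendsto_id
  exact this

end norm

section integral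

variable {E : Type*} [NormedAddCommGroup E] [InnerProductSpace ℝ E] [FiniteDimensional ℝ E]
  [MeasurableSpace E] [BorelSpace E]

theorem integrable_gauss (k : ℝ) (hk : 0 < k) :
    Integrable (fun y : E => Real.exp (-((k * ‖y‖) ^ 2 / 2))) := by
  have h := GaussianFourier.integrable_cexp_neg_mul_sq_norm_add (V := E)
    (b := ((k ^ 2 / 2 : ℝ) : ℂ)) (by rw [Complex.ofReal_re]; positivity) 0 0
  refine h.norm.congr (Eventually.of_forall fun y => ?_)
  simp only [Complex.norm_exp]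
  congr 1
  simp
  norm_cast
  ring

/-- The basic functional. -/
noncomputable def II (g : E → ℝ) (a b : E) : ℝ := ∫ y, Real.exp (-(val g a b y))

omit [FiniteDimensional ℝ E] [MeasurableSpace E] [BorelSpace E] in
theorem exp_val_le {g : E → ℝ} {c C : ℝ} (h : Gf g c C) (a b y : E) :
    ‖Real.exp (-(val g a b y))‖ ≤ Real.exp (-((kap c C a b * ‖y‖) ^ 2 / 2)) := by
  rw [Real.norm_eq_abs, abs_of_pos (Real.exp_pos _)]
  exact Real.exp_le_exp.2 (neg_le_neg (val_growth h a b y))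

theorem integrable_exp_val {g : E → ℝ} {c C : ℝ} (h : Gf g c C) (a b : E) :
    Integrable (fun y => Real.exp (-(val g a b y))) := by
  refine (integrable_gauss (kap c C a b) (kap_pos h.cpos h.Cnn a b)).mono' ?_ ?_
  · exact ((val_continuous h a b).neg.rexp).aestronglyMeasurable
  · exact Eventually.of_forall fun y => exp_val_le h a b y

theorem tendsto_II {ι : Type*} {l : Filter ι} [l.IsCountablyGenerated] {g : E → ℝ} {c C : ℝ}
    (h : Gf g c C)
    (G : ι → E → ℝ) (hG : ∀ i, ∃ c' C', Gf (G i) c' C') (ε : ι → ℝ)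
    (hε0 : ∀ᶠ i in l, 0 ≤ ε i)
    (hε : Tendsto ε l (𝓝 0)) (hcl : ∀ᶠ i in l, Close (ε i) g (G i)) (a b : E) :
    Tendsto (fun i => II (G i) a b) l (𝓝 (II g a b)) := by
  unfold II
  have hk : 0 < kap (c / 2) (2 * C) a b :=
    kap_pos (by have := h.cpos; positivity) (by have := h.Cnn; positivity) a b
  refine tendsto_integral_filter_of_dominated_convergence
    (fun y => Real.exp (-((kap (c / 2) (2 * C) a b * ‖y‖) ^ 2 / 2))) ?_ ?_
    (integrable_gauss _ hk) ?_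
  · refine Eventually.of_forall fun i => ?_
    obtain ⟨c', C', hg⟩ := hG i
    exact ((val_continuous hg a b).neg.rexp).aestronglyMeasurable
  · filter_upwards [hε.eventually_le_const one_pos, hcl] with i hi hi2
    obtain ⟨c', C', hg⟩ := hG i
    refine Eventually.of_forall fun y => ?_
    exact exp_val_le (Gf.of_close h hg hi2 hi) a b y
  · refine Eventually.of_forall fun y => ?_
    have h1 := tendsto_val h G hG ε hε0 hε hcl (fun _ => y) y a b tendsto_const_nhds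
    exact (Real.continuous_exp.tendsto _).comp h1.neg

/-- The second-order part. -/
noncomputable def MM (g : E → ℝ) (a b : E) : ℝ := II g a b - II g a 0 - II g 0 b + II g 0 0

theorem tendsto_MM {ι : Type*} {l : Filter ι} [l.IsCountablyGenerated] {g : E → ℝ} {c C : ℝ}
    (h : Gf g c C)
    (G : ι → E → ℝ) (hG : ∀ i, ∃ c' C', Gf (G i) c' C') (ε : ι → ℝ)
    (hε0 : ∀ᶠ i in l, 0 ≤ ε i)
    (hε : Tendsto ε l (𝓝 0)) (hcl : ∀ᶠ i in l, Close (ε i) g (G i)) (a b : E) :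
    Tendsto (fun i => MM (G i) a b) l (𝓝 (MM g a b)) := by
  unfold MM
  exact (((tendsto_II h G hG ε hε0 hε hcl a b).sub (tendsto_II h G hG ε hε0 hε hcl a 0)).sub
    (tendsto_II h G hG ε hε0 hε hcl 0 b)).add (tendsto_II h G hG ε hε0 hε hcl 0 0)

theorem II_valuation {g₁ g₂ m M : E → ℝ} {c₁ C₁ c₂ C₂ c₃ C₃ c₄ C₄ : ℝ}
    (h₁ : Gf g₁ c₁ C₁) (h₂ : Gf g₂ c₂ C₂) (hm : Gf m c₃ C₃) (hM : Gf M c₄ C₄)
    (em : ∀ x, m x = min (g₁ x) (g₂ x)) (eM : ∀ x, M x = max (g₁ x) (g₂ x)) (a b : E) :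
    II m a b + II M a b = II g₁ a b + II g₂ a b := by
  unfold II
  rw [← integral_add (integrable_exp_val hm a b) (integrable_exp_val hM a b),
    ← integral_add (integrable_exp_val h₁ a b) (integrable_exp_val h₂ a b)]
  congr 1
  funext y
  exact val_valuation h₁ h₂ hm hM em eM a b y (fun t => Real.exp (-t))

theorem MM_valuation {g₁ g₂ m M : E → ℝ} {c₁ C₁ c₂ C₂ c₃ C₃ c₄ C₄ : ℝ}
    (h₁ : Gf g₁ c₁ C₁) (h₂ : Gf g₂ c₂ C₂) (hm : Gf m c₃ C₃) (hM : Gf M c₄ C₄)
    (em : ∀ x, m x = min (g₁ x) (g₂ x)) (eM : ∀ x, M x = max (g₁ x) (g₂ x)) (a b : E) :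
    MM m a b + MM M a b = MM g₁ a b + MM g₂ a b := by
  unfold MM
  have e1 := II_valuation h₁ h₂ hm hM em eM a b
  have e2 := II_valuation h₁ h₂ hm hM em eM a 0
  have e3 := II_valuation h₁ h₂ hm hM em eM 0 b
  have e4 := II_valuation h₁ h₂ hm hM em eM 0 0
  linarith

end integral

end Pool.Agent.Lib.MP_05553e_gt
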