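import Mathlib
import Pool.Agent.Lib.MP_05553e_gt.Cont

set_option autoImplicit false

open MeasureTheory Filter Topology Set

namespace Pool.Agent.Lib.MP_05553e_gt

theorem det_rank_two {E : Type*} [AddCommGroup E] [Module ℝ E] [Module.Finite ℝ E]
    (a b : E) (α β : E →ₗ[ℝ] ℝ) :
    LinearMap.det (LinearMap.id + α.smulRight a + β.smulRight b) =
      (1 + α a) * (1 + β b) - α b * β a := by
  classical
  set e := Module.finBasis ℝ E with he
  rw [← LinearMap.det_toMatrix e]
  let A : Matrix (Fin (Module.finrank ℝ E)) (Fin 2) ℝ := fun i j => e.repr (![a, b] j) i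
  let B : Matrix (Fin 2) (Fin (Module.finrank ℝ E)) ℝ := fun i j => (![α, β] i) (e j)
  have h1 : LinearMap.toMatrix e e (LinearMap.id + α.smulRight a + β.smulRight b) = 1 + A * B := by
    ext i j
    rw [LinearMap.toMatrix_apply]
    simp only [LinearMap.add_apply, LinearMap.id_coe, id_eq, LinearMap.smulRight_apply, map_add,
      map_smul, Finsupp.add_apply, Finsupp.smul_apply, smul_eq_mul, Matrix.add_apply,
      Matrix.mul_apply, Fin.sum_univ_two, A, B]
    simp only [Module.Basis.repr_self, Matrix.cons_val_zero, Matrix.cons_val_one,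
      Matrix.one_apply, Finsupp.single_apply]
    rw [show (if j = i then (1 : ℝ) else 0) = if i = j then 1 else 0 by simp [eq_comm]]
    ring
  rw [h1, Matrix.det_one_add_mul_comm, Matrix.det_fin_two]
  have h2 : ∀ i j : Fin 2, (B * A) i j = (![α, β] i) (![a, b] j) := by
    intro i j
    rw [Matrix.mul_apply]
    conv_rhs => rw [← e.sum_repr (![a, b] j)]
    rw [map_sum]
    refine Finset.sum_congr rfl fun k _ => ?_
    rw [map_smul, smul_eq_mul, mul_comm]
  simp only [Matrix.add_apply, h2, Matrix.one_apply]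
  simp

section

variable {E : Type*} [NormedAddCommGroup E] [NormedSpace ℝ E]

/-- `F g` is differentiable with derivative `F1`, which is differentiable off the origin with
derivative `F2`. -/
structure Smooth2 (g : E → ℝ) (F1 : E → E →L[ℝ] ℝ) (F2 : E → E →L[ℝ] E →L[ℝ] ℝ) : Prop where
  d1 : ∀ x, HasFDerivAt (F g) (F1 x) x
  d2 : ∀ x, x ≠ 0 → HasFDerivAt F1 (F2 x) x

theorem grad_ineq {g : E → ℝ} {c C : ℝ} (h : Gf g c C) {F1 : E → E →L[ℝ] ℝ}
    (d1 : ∀ x, HasFDerivAt (F g) (F1 x) x) (x z : E) :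
    F g x + F1 x (z - x) ≤ F g z := by
  have hd : HasDerivAt (fun t : ℝ => F g (x + t • (z - x))) (F1 x (z - x)) 0 := by
    have h1 : HasDerivAt (fun t : ℝ => x + t • (z - x)) (z - x) 0 := by
      have := ((hasDerivAt_id (0 : ℝ)).smul_const (z - x)).const_add x
      simpa using this
    have h2 : HasFDerivAt (F g) (F1 x) ((fun t : ℝ => x + t • (z - x)) 0) := by
      simpa using d1 x
    exact h2.comp_hasDerivAt 0 h1
  have hs := (hasDerivAt_iff_tendsto_slope.1 hd)
  have hs2 : Tendsto (slope (fun t : ℝ => F g (x + t • (z - x))) 0) (𝓝[>] 0)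
      (𝓝 (F1 x (z - x))) := hs.mono_left (nhdsWithin_mono _ (fun t ht => ne_of_gt ht))
  have hle : F1 x (z - x) ≤ F g z - F g x := by
    refine le_of_tendsto hs2 ?_
    have h8 : Ioc (0 : ℝ) 1 ∈ 𝓝[>] (0 : ℝ) := Ioc_mem_nhdsGT one_pos
    filter_upwards [h8] with t ht
    rw [slope_def_field]
    have h3 := F_convex h x z t ht.1.le ht.2
    have e1 : x + t • (z - x) = (1 - t) • x + t • z := by module
    rw [e1]
    simp only [zero_smul, add_zero, sub_zero]
    rw [div_le_iff₀ ht.1]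
    linarith
  linarith

/-- The map whose inverse is the proximal map. -/
noncomputable def TT (F1 : E → E →L[ℝ] ℝ) (a b x : E) : E := x + F1 x a • a + F1 x b • b

theorem argm_TT {g : E → ℝ} {c C : ℝ} (h : Gf g c C) {F1 : E → E →L[ℝ] ℝ}
    (d1 : ∀ x, HasFDerivAt (F g) (F1 x) x) (a b x : E) :
    argm g a b (TT F1 a b x) = (-F1 x a, -F1 x b) := by
  symm
  apply min_unique h
  intro q
  have e1 : shift a b (TT F1 a b x) (-F1 x a, -F1 x b) = x := by
    unfold shift TT
    simp only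
    module
  have e2 : shift a b (TT F1 a b x) q = x + ((q.1 + F1 x a) • a + (q.2 + F1 x b) • b) := by
    unfold shift TT
    module
  have h1 := grad_ineq h d1 x (shift a b (TT F1 a b x) q)
  rw [e2] at h1
  simp only [add_sub_cancel_left, map_add, map_smul, smul_eq_mul] at h1
  unfold J
  rw [e1, e2]
  unfold q2
  simp only
  nlinarith [sq_nonneg (q.1 + F1 x a), sq_nonneg (q.2 + F1 x b)]

theorem shift_TT {g : E → ℝ} {c C : ℝ} (h : Gf g c C) {F1 : E → E →L[ℝ] ℝ}
    (d1 : ∀ x, HasFDerivAt (F g) (F1 x) x) (a b x : E) :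
    shift a b (TT F1 a b x) (argm g a b (TT F1 a b x)) = x := by
  rw [argm_TT h d1]
  unfold shift TT
  simp only
  module

theorem val_TT {g : E → ℝ} {c C : ℝ} (h : Gf g c C) {F1 : E → E →L[ℝ] ℝ}
    (d1 : ∀ x, HasFDerivAt (F g) (F1 x) x) (a b x : E) :
    val g a b (TT F1 a b x) = F g x := by
  unfold val
  rw [shift_TT h d1]

theorem TT_injective {g : E → ℝ} {c C : ℝ} (h : Gf g c C) {F1 : E → E →L[ℝ] ℝ}
    (d1 : ∀ x, HasFDerivAt (F g) (F1 x) x) (a b : E) : Function.Injective (TT F1 a b) := by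
  intro x x' hx
  rw [← shift_TT h d1 a b x, ← shift_TT h d1 a b x', hx]

theorem TT_surjective {g : E → ℝ} {c C : ℝ} (h : Gf g c C) {F1 : E → E →L[ℝ] ℝ}
    (d1 : ∀ x, HasFDerivAt (F g) (F1 x) x) (a b y : E) : ∃ x, TT F1 a b x = y := by
  set p := argm g a b y with hp
  have hmin := argm_spec h a b y
  rw [← hp] at hmin
  refine ⟨shift a b y p, ?_⟩
  -- first component
  have c1 : F1 (shift a b y p) a + p.1 = 0 := by
    have hd : HasDerivAt (fun t : ℝ => J g a b y (p + (t, 0))) (F1 (shift a b y p) a + p.1) 0 := by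
      have h1 : HasDerivAt (fun t : ℝ => shift a b y p + t • a) a 0 := by
        have := ((hasDerivAt_id (0 : ℝ)).smul_const a).const_add (shift a b y p)
        simpa using this
      have h2 : HasFDerivAt (F g) (F1 (shift a b y p)) ((fun t : ℝ => shift a b y p + t • a) 0) := by
        simpa using d1 (shift a b y p)
      have h3 := h2.comp_hasDerivAt 0 h1
      have h4 : HasDerivAt (fun t : ℝ => ((p.1 + t) ^ 2 + p.2 ^ 2) / 2) p.1 0 := by
        have h5 : HasDerivAt (fun t : ℝ => p.1 + t) 1 0 := by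
          simpa using (hasDerivAt_id (0 : ℝ)).const_add p.1
        have h6 := ((h5.pow 2).add_const (p.2 ^ 2)).div_const 2
        refine h6.congr_deriv ?_
        push_cast
        ring
      have h7 := h3.add h4
      refine h7.congr_of_eventuallyEq (Eventually.of_forall fun t => ?_)
      change J g a b y (p + (t, 0)) =
        F g (shift a b y p + t • a) + ((p.1 + t) ^ 2 + p.2 ^ 2) / 2
      unfold J q2
      have e1 : shift a b y (p + (t, 0)) = shift a b y p + t • a := by
        unfold shift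
        simp only [Prod.fst_add, Prod.snd_add, add_zero]
        module
      rw [e1]
      simp
    have hloc : IsLocalMin (fun t : ℝ => J g a b y (p + (t, 0))) 0 := by
      refine Eventually.of_forall fun t => ?_
      have h8 := hmin (p + (t, 0))
      have h9 : p + ((0 : ℝ), (0 : ℝ)) = p := add_zero p
      simp only [h9]
      exact h8
    exact hloc.hasDerivAt_eq_zero hd
  have c2 : F1 (shift a b y p) b + p.2 = 0 := by
    have hd : HasDerivAt (fun t : ℝ => J g a b y (p + (0, t))) (F1 (shift a b y p) b + p.2) 0 := by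
      have h1 : HasDerivAt (fun t : ℝ => shift a b y p + t • b) b 0 := by
        have := ((hasDerivAt_id (0 : ℝ)).smul_const b).const_add (shift a b y p)
        simpa using this
      have h2 : HasFDerivAt (F g) (F1 (shift a b y p)) ((fun t : ℝ => shift a b y p + t • b) 0) := by
        simpa using d1 (shift a b y p)
      have h3 := h2.comp_hasDerivAt 0 h1
      have h4 : HasDerivAt (fun t : ℝ => ((p.2 + t) ^ 2 + p.1 ^ 2) / 2) p.2 0 := by
        have h5 : HasDerivAt (fun t : ℝ => p.2 + t) 1 0 := by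
          simpa using (hasDerivAt_id (0 : ℝ)).const_add p.2
        have h6 := ((h5.pow 2).add_const (p.1 ^ 2)).div_const 2
        refine h6.congr_deriv ?_
        push_cast
        ring
      have h7 := h3.add h4
      refine h7.congr_of_eventuallyEq (Eventually.of_forall fun t => ?_)
      change J g a b y (p + (0, t)) =
        F g (shift a b y p + t • b) + ((p.2 + t) ^ 2 + p.1 ^ 2) / 2
      unfold J q2
      have e1 : shift a b y (p + (0, t)) = shift a b y p + t • b := by
        unfold shift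
        simp only [Prod.fst_add, Prod.snd_add, add_zero]
        module
      rw [e1]
      simp [add_comm]
    have hloc : IsLocalMin (fun t : ℝ => J g a b y (p + (0, t))) 0 := by
      refine Eventually.of_forall fun t => ?_
      have h8 := hmin (p + (0, t))
      have h9 : p + ((0 : ℝ), (0 : ℝ)) = p := add_zero p
      simp only [h9]
      exact h8
    exact hloc.hasDerivAt_eq_zero hd
  have e1 : F1 (shift a b y p) a = -p.1 := by linarith
  have e2 : F1 (shift a b y p) b = -p.2 := by linarith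
  unfold TT
  rw [e1, e2]
  unfold shift
  module

theorem F1_zero {g : E → ℝ} {c C : ℝ} (h : Gf g c C) {F1 : E → E →L[ℝ] ℝ}
    (d1 : ∀ x, HasFDerivAt (F g) (F1 x) x) : F1 0 = 0 := by
  have hloc : IsLocalMin (F g) 0 := by
    refine Eventually.of_forall fun t => ?_
    have : F g 0 = 0 := by
      unfold F
      rw [h.zero]
      simp
    rw [this]
    exact F_nonneg g t
  exact hloc.hasFDerivAt_eq_zero (d1 0)

theorem TT_image {g : E → ℝ} {c C : ℝ} (h : Gf g c C) {F1 : E → E →L[ℝ] ℝ}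
    (d1 : ∀ x, HasFDerivAt (F g) (F1 x) x) (a b : E) :
    TT F1 a b '' {0}ᶜ = {0}ᶜ := by
  have h0 : TT F1 a b 0 = 0 := by
    unfold TT
    rw [F1_zero h d1]
    simp
  ext y
  constructor
  · rintro ⟨x, hx, rfl⟩
    intro hy
    apply hx
    have : TT F1 a b x = TT F1 a b 0 := by
      rw [h0]
      exact hy
    exact TT_injective h d1 a b this
  · intro hy
    obtain ⟨x, rfl⟩ := TT_surjective h d1 a b y
    refine ⟨x, ?_, rfl⟩
    intro hx
    apply hy
    rw [mem_singleton_iff] at hx ⊢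
    rw [hx, h0]

/-- The derivative of `TT`. -/
noncomputable def TT' (F2 : E → E →L[ℝ] E →L[ℝ] ℝ) (a b x : E) : E →L[ℝ] E :=
  ContinuousLinearMap.id ℝ E +
    ((ContinuousLinearMap.apply ℝ ℝ a).comp (F2 x)).smulRight a +
    ((ContinuousLinearMap.apply ℝ ℝ b).comp (F2 x)).smulRight b

theorem TT_hasFDerivAt {F1 : E → E →L[ℝ] ℝ} {F2 : E → E →L[ℝ] E →L[ℝ] ℝ}
    (a b x : E) (d2 : HasFDerivAt F1 (F2 x) x) :
    HasFDerivAt (TT F1 a b) (TT' F2 a b x) x := by
  have ha : HasFDerivAt (fun x => F1 x a) ((ContinuousLinearMap.apply ℝ ℝ a).comp (F2 x)) x :=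
    (ContinuousLinearMap.apply ℝ ℝ a).hasFDerivAt.comp x d2
  have hb : HasFDerivAt (fun x => F1 x b) ((ContinuousLinearMap.apply ℝ ℝ b).comp (F2 x)) x :=
    (ContinuousLinearMap.apply ℝ ℝ b).hasFDerivAt.comp x d2
  exact ((hasFDerivAt_id x).add (ha.smul_const a)).add (hb.smul_const b)

theorem F2_nonneg {g : E → ℝ} {c C : ℝ} (h : Gf g c C) {F1 : E → E →L[ℝ] ℝ}
    {F2 : E → E →L[ℝ] E →L[ℝ] ℝ}
    (d1 : ∀ x, HasFDerivAt (F g) (F1 x) x) (x : E) (d2 : HasFDerivAt F1 (F2 x) x) (v : E) :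
    0 ≤ F2 x v v := by
  have hd : HasDerivAt (fun t : ℝ => F1 (x + t • v) v) (F2 x v v) 0 := by
    have h1 : HasDerivAt (fun t : ℝ => x + t • v) v 0 := by
      have := ((hasDerivAt_id (0 : ℝ)).smul_const v).const_add x
      simpa using this
    have h2 : HasFDerivAt F1 (F2 x) ((fun t : ℝ => x + t • v) 0) := by
      simpa using d2
    have h3 := h2.comp_hasDerivAt 0 h1
    have h4 := (ContinuousLinearMap.apply ℝ ℝ v).hasFDerivAt.comp_hasDerivAt (0 : ℝ) h3
    exact h4
  have hs := (hasDerivAt_iff_tendsto_slope.1 hd)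
  have hs2 : Tendsto (slope (fun t : ℝ => F1 (x + t • v) v) 0) (𝓝[>] 0)
      (𝓝 (F2 x v v)) := hs.mono_left (nhdsWithin_mono _ (fun t ht => ne_of_gt ht))
  refine ge_of_tendsto hs2 ?_
  filter_upwards [self_mem_nhdsWithin] with t ht
  rw [slope_def_field]
  have ht' : (0 : ℝ) < t := ht
  refine div_nonneg ?_ (by simpa using ht'.le)
  have g1 := grad_ineq h d1 x (x + t • v)
  have g2 := grad_ineq h d1 (x + t • v) x
  have e1 : x + t • v - x = t • v := by module
  have e2 : x - (x + t • v) = -(t • v) := by module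
  rw [e1] at g1
  rw [e2] at g2
  simp only [map_smul, smul_eq_mul, map_neg] at g1 g2
  simp only [zero_smul, add_zero]
  have h5 : 0 ≤ t * (F1 (x + t • v) v - F1 x v) := by linarith
  exact nonneg_of_mul_nonneg_right h5 ht'

theorem F2_det_nonneg {g : E → ℝ} {c C : ℝ} (h : Gf g c C) {F1 : E → E →L[ℝ] ℝ}
    {F2 : E → E →L[ℝ] E →L[ℝ] ℝ}
    (d1 : ∀ x, HasFDerivAt (F g) (F1 x) x) (x : E) (d2 : HasFDerivAt F1 (F2 x) x) (a b : E) :
    (F2 x a b) ^ 2 ≤ F2 x a a * F2 x b b := by
  have hsym := second_derivative_symmetric d1 d2 b a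
  have hq : ∀ t : ℝ, 0 ≤ F2 x a a * (t * t) + (2 * F2 x a b) * t + F2 x b b := by
    intro t
    have h1 := F2_nonneg h d1 x d2 (t • a + b)
    simp only [map_add, map_smul, add_apply, smul_apply,
      smul_eq_mul] at h1
    rw [hsym] at h1
    linarith
  have h2 := discrim_le_zero hq
  unfold discrim at h2
  nlinarith

/-- The Jacobian. -/
noncomputable def DD (F2 : E → E →L[ℝ] E →L[ℝ] ℝ) (a b x : E) : ℝ :=
  (1 + F2 x a a) * (1 + F2 x b b) - (F2 x a b) ^ 2

theorem DD_nonneg {g : E → ℝ} {c C : ℝ} (h : Gf g c C) {F1 : E → E →L[ℝ] ℝ}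
    {F2 : E → E →L[ℝ] E →L[ℝ] ℝ}
    (d1 : ∀ x, HasFDerivAt (F g) (F1 x) x) (x : E) (d2 : HasFDerivAt F1 (F2 x) x) (a b : E) :
    0 ≤ DD F2 a b x := by
  unfold DD
  have h1 := F2_det_nonneg h d1 x d2 a b
  have h2 := F2_nonneg h d1 x d2 a
  have h3 := F2_nonneg h d1 x d2 b
  nlinarith

theorem TT'_det [FiniteDimensional ℝ E] {g : E → ℝ} {F1 : E → E →L[ℝ] ℝ}
    {F2 : E → E →L[ℝ] E →L[ℝ] ℝ}
    (d1 : ∀ x, HasFDerivAt (F g) (F1 x) x) (x : E) (d2 : HasFDerivAt F1 (F2 x) x) (a b : E) :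
    (TT' F2 a b x).det = DD F2 a b x := by
  have e1 : ((TT' F2 a b x : E →L[ℝ] E) : E →ₗ[ℝ] E) =
      LinearMap.id + (((ContinuousLinearMap.apply ℝ ℝ a).comp (F2 x) : E →L[ℝ] ℝ) :
        E →ₗ[ℝ] ℝ).smulRight a + (((ContinuousLinearMap.apply ℝ ℝ b).comp (F2 x) : E →L[ℝ] ℝ) :
        E →ₗ[ℝ] ℝ).smulRight b := by
    ext v
    simp [TT']
  unfold ContinuousLinearMap.det
  rw [e1, det_rank_two]
  have hsym := second_derivative_symmetric d1 d2 b a
  simp only [ContinuousLinearMap.coe_coe, ContinuousLinearMap.comp_apply,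
    ContinuousLinearMap.apply_apply]
  unfold DD
  rw [hsym]
  ring

end

section integral

variable {E : Type*} [NormedAddCommGroup E] [InnerProductSpace ℝ E] [FiniteDimensional ℝ E]
  [MeasurableSpace E] [BorelSpace E]

theorem II_smooth [Nontrivial E] {g : E → ℝ} {c C : ℝ} (h : Gf g c C) {F1 : E → E →L[ℝ] ℝ}
    {F2 : E → E →L[ℝ] E →L[ℝ] ℝ} (hs : Smooth2 g F1 F2) (a b : E) :
    IntegrableOn (fun x => DD F2 a b x * Real.exp (-(F g x))) {0}ᶜ ∧
    II g a b = ∫ x in {0}ᶜ, DD F2 a b x * Real.exp (-(F g x)) := by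
  have hm : MeasurableSet ({0}ᶜ : Set E) := (measurableSet_singleton 0).compl
  have hd : ∀ x ∈ ({0}ᶜ : Set E), HasFDerivWithinAt (TT F1 a b) (TT' F2 a b x) {0}ᶜ x :=
    fun x hx => (TT_hasFDerivAt a b x (hs.d2 x hx)).hasFDerivWithinAt
  have hi : InjOn (TT F1 a b) ({0}ᶜ : Set E) := (TT_injective h hs.d1 a b).injOn
  have hcongr : ∀ x ∈ ({0}ᶜ : Set E), |(TT' F2 a b x).det| •
      Real.exp (-(val g a b (TT F1 a b x))) = DD F2 a b x * Real.exp (-(F g x)) := by
    intro x hx
    rw [TT'_det hs.d1 x (hs.d2 x hx), abs_of_nonneg (DD_nonneg h hs.d1 x (hs.d2 x hx) a b),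
      val_TT h hs.d1, smul_eq_mul]
  have h0 : ({0}ᶜ : Set E) =ᵐ[volume] (univ : Set E) := by
    rw [ae_eq_univ, compl_compl]
    exact measure_singleton 0
  constructor
  · have h1 := (integrableOn_image_iff_integrableOn_abs_det_fderiv_smul volume hm hd hi
      (fun y => Real.exp (-(val g a b y)))).1 (by
        exact (integrable_exp_val h a b).integrableOn)
    exact h1.congr_fun hcongr hm
  · unfold II
    rw [← setIntegral_univ, ← setIntegral_congr_set h0, ← setIntegral_congr_fun hm hcongr,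
      ← integral_image_eq_integral_abs_det_fderiv_smul volume hm hd hi
        (fun y => Real.exp (-(val g a b y))), TT_image h hs.d1]

theorem MM_smooth [Nontrivial E] {g : E → ℝ} {c C : ℝ} (h : Gf g c C) {F1 : E → E →L[ℝ] ℝ}
    {F2 : E → E →L[ℝ] E →L[ℝ] ℝ} (hs : Smooth2 g F1 F2) (a b : E) :
    IntegrableOn (fun x => (F2 x a a * F2 x b b - (F2 x a b) ^ 2) * Real.exp (-(F g x))) {0}ᶜ ∧
    MM g a b = ∫ x in {0}ᶜ, (F2 x a a * F2 x b b - (F2 x a b) ^ 2) * Real.exp (-(F g x)) := by
  obtain ⟨i1, e1⟩ := II_smooth h hs a b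
  obtain ⟨i2, e2⟩ := II_smooth h hs a 0
  obtain ⟨i3, e3⟩ := II_smooth h hs 0 b
  obtain ⟨i4, e4⟩ := II_smooth h hs 0 0
  have i5 := ((i1.sub i2).sub i3).add i4
  have hcongr : (fun x => DD F2 a b x * Real.exp (-(F g x))) -
      (fun x => DD F2 a 0 x * Real.exp (-(F g x))) -
      (fun x => DD F2 0 b x * Real.exp (-(F g x))) +
      (fun x => DD F2 0 0 x * Real.exp (-(F g x))) =
      fun x => (F2 x a a * F2 x b b - (F2 x a b) ^ 2) * Real.exp (-(F g x)) := by
    funext x
    simp only [Pi.add_apply, Pi.sub_apply]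
    unfold DD
    simp only [map_zero, zero_apply]
    ring
  rw [hcongr] at i5
  refine ⟨i5, ?_⟩
  have k1 := integral_sub i1 i2
  have k2 := integral_sub (i1.sub i2) i3
  have k3 := integral_add ((i1.sub i2).sub i3) i4
  simp only [Pi.sub_apply] at k2 k3
  have k4 : (∫ x in {0}ᶜ, (F2 x a a * F2 x b b - (F2 x a b) ^ 2) * Real.exp (-(F g x))) =
      ∫ x in {0}ᶜ, (DD F2 a b x * Real.exp (-(F g x)) - DD F2 a 0 x * Real.exp (-(F g x)) -
        DD F2 0 b x * Real.exp (-(F g x)) + DD F2 0 0 x * Real.exp (-(F g x))) := by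
    congr 1
    funext x
    exact (congrFun hcongr x).symm
  unfold MM
  rw [e1, e2, e3, e4, k4, k3, k2, k1]

end integral

end Pool.Agent.Lib.MP_05553e_gt
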