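import Mathlib
import Pool.Agent.Lib.MP_05553e_gt.Smooth

set_option autoImplicit false

open MeasureTheory Filter Topology Set

namespace Pool.Agent.Lib.MP_05553e_gt

/-- The `k`-th power of the positive part. -/
noncomputable def posp (k : ℕ) (s : ℝ) : ℝ := (max s 0) ^ k

theorem posp_nonneg (k : ℕ) (s : ℝ) : 0 ≤ posp k s := by
  unfold posp
  positivity

theorem posp_hasDerivAt (k : ℕ) (s : ℝ) :
    HasDerivAt (posp (k + 2)) ((k + 2 : ℕ) * posp (k + 1) s) s := by
  rcases lt_trichotomy s 0 with h | h | h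
  · have h1 : posp (k + 2) =ᶠ[𝓝 s] fun _ => 0 := by
      filter_upwards [Iio_mem_nhds h] with t ht
      unfold posp
      rw [max_eq_right (le_of_lt ht)]
      simp
    have h2 : posp (k + 1) s = 0 := by
      unfold posp
      rw [max_eq_right h.le]
      simp
    rw [h2, mul_zero]
    exact (hasDerivAt_const s (0 : ℝ)).congr_of_eventuallyEq h1
  · subst h
    have h2 : posp (k + 1) 0 = 0 := by
      unfold posp
      simp
    rw [h2, mul_zero]
    have h3 : posp (k + 2) =O[𝓝 (0 : ℝ)] fun x => ‖x - 0‖ ^ (k + 2) := by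
      refine Asymptotics.IsBigO.of_bound 1 (Eventually.of_forall fun t => ?_)
      rw [sub_zero, one_mul, Real.norm_eq_abs, Real.norm_eq_abs, abs_of_nonneg (posp_nonneg _ _)]
      unfold posp
      have h4 : max t 0 ≤ |t| := max_le (le_abs_self t) (abs_nonneg t)
      have h5 := pow_le_pow_left₀ (le_max_right t 0) h4 (k + 2)
      rw [abs_of_nonneg (by positivity : (0 : ℝ) ≤ ‖t‖ ^ (k + 2)), Real.norm_eq_abs]
      exact h5
    have h4 := h3.hasFDerivAt (𝕜 := ℝ) (by omega)
    have h5 := h4.hasDerivAt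
    simpa using h5
  · have h1 : posp (k + 2) =ᶠ[𝓝 s] fun t => t ^ (k + 2) := by
      filter_upwards [Ioi_mem_nhds h] with t ht
      unfold posp
      rw [max_eq_left (le_of_lt ht)]
    have h2 : posp (k + 1) s = s ^ (k + 1) := by
      unfold posp
      rw [max_eq_left h.le]
    rw [h2]
    have h3 := hasDerivAt_pow (k + 2) s
    exact h3.congr_of_eventuallyEq h1

theorem posp_contDiff (k : ℕ) : ContDiff ℝ 2 (posp (k + 3)) := by
  have e2 : (2 : WithTop ℕ∞) = 1 + 1 := by norm_num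
  have e1 : (1 : WithTop ℕ∞) = 0 + 1 := by norm_num
  have d1 : deriv (posp (k + 3)) = fun s => ((k + 1 + 2 : ℕ) : ℝ) * posp (k + 2) s := by
    funext s
    exact (posp_hasDerivAt (k + 1) s).deriv
  have d2 : deriv (posp (k + 2)) = fun s => ((k + 2 : ℕ) : ℝ) * posp (k + 1) s := by
    funext s
    exact (posp_hasDerivAt k s).deriv
  rw [e2, contDiff_succ_iff_deriv]
  refine ⟨fun s => (posp_hasDerivAt (k + 1) s).differentiableAt, by simp, ?_⟩
  rw [d1]
  refine contDiff_const.mul ?_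
  rw [e1, contDiff_succ_iff_deriv]
  refine ⟨fun s => (posp_hasDerivAt k s).differentiableAt, by simp, ?_⟩
  rw [d2, contDiff_zero]
  unfold posp
  fun_prop

section

variable {E : Type*} [NormedAddCommGroup E] [NormedSpace ℝ E]

/-- The sum of the powers. -/
noncomputable def SS (s : Finset (E →L[ℝ] ℝ)) (p : ℕ) (x : E) : ℝ := ∑ l ∈ s, posp p (l x)

/-- The smooth approximation. -/
noncomputable def gp (s : Finset (E →L[ℝ] ℝ)) (p : ℕ) (x : E) : ℝ := (SS s p x) ^ (1 / (p : ℝ))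

theorem SS_nonneg (s : Finset (E →L[ℝ] ℝ)) (p : ℕ) (x : E) : 0 ≤ SS s p x :=
  Finset.sum_nonneg fun _ _ => posp_nonneg _ _

theorem gp_nonneg (s : Finset (E →L[ℝ] ℝ)) (p : ℕ) (x : E) : 0 ≤ gp s p x :=
  Real.rpow_nonneg (SS_nonneg s p x) _

theorem gp_pow (s : Finset (E →L[ℝ] ℝ)) (p : ℕ) (hp : p ≠ 0) (x : E) :
    (gp s p x) ^ p = SS s p x := by
  unfold gp
  rw [← Real.rpow_natCast, ← Real.rpow_mul (SS_nonneg s p x)]
  rw [one_div, inv_mul_cancel₀ (by exact_mod_cast hp), Real.rpow_one]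

theorem gp_add_le (s : Finset (E →L[ℝ] ℝ)) (p : ℕ) (hp : 1 ≤ p) (x y : E) :
    gp s p (x + y) ≤ gp s p x + gp s p y := by
  have hp' : (1 : ℝ) ≤ p := by exact_mod_cast hp
  have h1 := Real.Lp_add_le_of_nonneg s (f := fun l : E →L[ℝ] ℝ => max (l x) 0)
    (g := fun l : E →L[ℝ] ℝ => max (l y) 0) hp' (fun _ _ => le_max_right _ _)
    (fun _ _ => le_max_right _ _)
  simp only [Real.rpow_natCast] at h1
  have h2 : gp s p (x + y) ≤
      (∑ l ∈ s, (max (l x) 0 + max (l y) 0) ^ p) ^ (1 / (p : ℝ)) := by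
    unfold gp
    refine Real.rpow_le_rpow (SS_nonneg s p _) ?_ (by positivity)
    unfold SS posp
    refine Finset.sum_le_sum fun l _ => ?_
    refine pow_le_pow_left₀ (le_max_right _ _) ?_ p
    rw [map_add]
    exact max_le (add_le_add (le_max_left _ _) (le_max_left _ _))
      (add_nonneg (le_max_right _ _) (le_max_right _ _))
  exact h2.trans h1

theorem gp_smul (s : Finset (E →L[ℝ] ℝ)) (p : ℕ) (hp : p ≠ 0) (t : ℝ) (ht : 0 ≤ t) (x : E) :
    gp s p (t • x) = t * gp s p x := by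
  have h1 : SS s p (t • x) = t ^ p * SS s p x := by
    unfold SS posp
    rw [Finset.mul_sum]
    refine Finset.sum_congr rfl fun l _ => ?_
    rw [map_smul, smul_eq_mul, ← mul_pow]
    congr 1
    rw [mul_max_of_nonneg _ _ ht, mul_zero]
  unfold gp
  rw [h1, Real.mul_rpow (by positivity) (SS_nonneg s p x), ← Real.rpow_natCast,
    ← Real.rpow_mul ht, mul_one_div, div_self (by exact_mod_cast hp), Real.rpow_one]

theorem gp_ge (s : Finset (E →L[ℝ] ℝ)) (p : ℕ) (hp : p ≠ 0) (x : E) (l : E →L[ℝ] ℝ) (hl : l ∈ s) :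
    l x ≤ gp s p x := by
  have h1 : (max (l x) 0) ^ p ≤ (gp s p x) ^ p := by
    rw [gp_pow s p hp]
    unfold SS
    exact Finset.single_le_sum (f := fun l : E →L[ℝ] ℝ => posp p (l x))
      (fun l _ => posp_nonneg _ _) hl
  exact (le_max_left _ _).trans (le_of_pow_le_pow_left₀ hp (gp_nonneg s p x) h1)

theorem gp_le (s : Finset (E →L[ℝ] ℝ)) (p : ℕ) (hp : p ≠ 0) (x : E) (B : ℝ) (hB : 0 ≤ B)
    (h : ∀ l ∈ s, l x ≤ B) : gp s p x ≤ (s.card : ℝ) ^ (1 / (p : ℝ)) * B := by
  have h1 : SS s p x ≤ s.card * B ^ p := by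
    unfold SS
    have h2 := Finset.sum_le_card_nsmul s (fun l : E →L[ℝ] ℝ => posp p (l x)) (B ^ p) ?_
    · rw [nsmul_eq_mul] at h2
      exact h2
    · intro l hl
      unfold posp
      exact pow_le_pow_left₀ (le_max_right _ _) (max_le (h l hl) hB) p
  unfold gp
  refine (Real.rpow_le_rpow (SS_nonneg s p x) h1 (by positivity)).trans ?_
  rw [Real.mul_rpow (by positivity) (by positivity), ← Real.rpow_natCast B, ← Real.rpow_mul hB,
    mul_one_div, div_self (by exact_mod_cast hp), Real.rpow_one]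

/-- Supporting functionals. -/
theorem exists_support [FiniteDimensional ℝ E] {g : E → ℝ} {c C : ℝ} (h : Gf g c C) (x₀ : E) :
    ∃ l : E →L[ℝ] ℝ, (∀ x, l x ≤ g x) ∧ l x₀ = g x₀ := by
  by_cases hx : x₀ = 0
  · refine ⟨0, fun x => ?_, ?_⟩
    · simpa using h.nonneg x
    · rw [hx, h.zero]
      simp
  · have hz : ∀ c : ℝ, c • x₀ = 0 → (RingHom.id ℝ) c • (g x₀) = 0 := by
      intro c hc
      rcases smul_eq_zero.1 hc with h0 | h0
      · simp [h0]
      · exact absurd h0 hx
    obtain ⟨l, hl1, hl2⟩ := exists_extension_of_le_sublinear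
      (LinearPMap.mkSpanSingleton' x₀ (g x₀) hz) g (fun c hc x => h.smul c hc.le x) h.add_le (by
        rintro ⟨x, hx'⟩
        rw [LinearPMap.domain_mkSpanSingleton] at hx'
        obtain ⟨t, rfl⟩ := Submodule.mem_span_singleton.1 hx'
        rw [LinearPMap.mkSpanSingleton'_apply]
        simp only [RingHom.id_apply, smul_eq_mul]
        rcases le_total 0 t with ht | ht
        · rw [h.smul t ht]
        · have h1 := h.nonneg (t • x₀)
          have h2 := h.nonneg x₀
          nlinarith)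
    refine ⟨LinearMap.toContinuousLinearMap l, fun x => hl2 x, ?_⟩
    have hmem : x₀ ∈ (LinearPMap.mkSpanSingleton' x₀ (g x₀) hz).domain := by
      rw [LinearPMap.domain_mkSpanSingleton]
      exact Submodule.mem_span_singleton_self x₀
    have h3 := hl1 ⟨x₀, hmem⟩
    rw [LinearPMap.mkSpanSingleton'_apply_self] at h3
    exact h3

theorem exists_finset [FiniteDimensional ℝ E] {g : E → ℝ} {c C : ℝ} (h : Gf g c C) (k : ℝ)
    (hk1 : k < 1) :
    ∃ s : Finset (E →L[ℝ] ℝ), (∀ l ∈ s, ∀ x, l x ≤ g x) ∧ ∀ x, x ≠ 0 → ∃ l ∈ s, k * g x ≤ l x := by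
  classical
  choose L hL1 hL2 using fun x₀ : E => exists_support h x₀
  have hcomp : IsCompact (Metric.sphere (0 : E) 1) := isCompact_sphere 0 1
  obtain ⟨t, ht1, ht2⟩ := hcomp.elim_nhds_subcover (fun x₀ => {x | k * g x < L x₀ x}) (by
    intro x₀ hx₀
    have hopen : IsOpen {x | k * g x < L x₀ x} :=
      isOpen_lt (continuous_const.mul h.continuous) (L x₀).continuous
    refine hopen.mem_nhds ?_
    change k * g x₀ < L x₀ x₀
    rw [hL2]
    have hn : ‖x₀‖ = 1 := by simpa using hx₀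
    have hpos : 0 < g x₀ := by
      have h1 := h.lower x₀
      have h2 := h.cpos
      rw [hn] at h1
      linarith
    nlinarith)
  refine ⟨t.image L, ?_, ?_⟩
  · intro l hl x
    obtain ⟨x₀, _, rfl⟩ := Finset.mem_image.1 hl
    exact hL1 x₀ x
  · intro x hx
    have hnx : 0 < ‖x‖ := norm_pos_iff.2 hx
    have hmem : (‖x‖⁻¹ • x) ∈ Metric.sphere (0 : E) 1 := by
      rw [mem_sphere_zero_iff_norm, norm_smul, norm_inv, norm_norm, inv_mul_cancel₀ hnx.ne']
    have h1 := ht2 hmem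
    rw [mem_iUnion₂] at h1
    obtain ⟨x₀, hx₀, h2⟩ := h1
    refine ⟨L x₀, Finset.mem_image_of_mem L hx₀, ?_⟩
    have h3 : k * g (‖x‖⁻¹ • x) < L x₀ (‖x‖⁻¹ • x) := h2
    rw [h.smul _ (by positivity), map_smul, smul_eq_mul] at h3
    have h4 : ‖x‖⁻¹ * (k * g x) < ‖x‖⁻¹ * L x₀ x := by linarith
    exact (lt_of_mul_lt_mul_left h4 (by positivity)).le

theorem SS_contDiff (s : Finset (E →L[ℝ] ℝ)) (m : ℕ) : ContDiff ℝ 2 (SS s (m + 3)) := by
  unfold SS
  exact ContDiff.sum fun l _ => (posp_contDiff m).comp l.contDiff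

theorem smooth_gp (s : Finset (E →L[ℝ] ℝ)) (m : ℕ) (c C : ℝ) (h : Gf (gp s (m + 3)) c C) :
    Smooth2 (gp s (m + 3)) (fderiv ℝ (F (gp s (m + 3))))
      (fderiv ℝ (fderiv ℝ (F (gp s (m + 3))))) := by
  have hcd : ∀ x : E, x ≠ 0 → ContDiffAt ℝ 2 (F (gp s (m + 3))) x := by
    intro x hx
    have hpos : 0 < gp s (m + 3) x := by
      have h1 := h.lower x
      have h2 : 0 < c * ‖x‖ := mul_pos h.cpos (norm_pos_iff.2 hx)
      linarith
    have hS : SS s (m + 3) x ≠ 0 := by
      rw [← gp_pow s (m + 3) (by omega)]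
      positivity
    unfold F gp
    exact (((SS_contDiff s m).contDiffAt.rpow_const_of_ne hS).pow 2).div_const 2
  constructor
  · intro x
    by_cases hx : x = 0
    · subst hx
      have h3 : F (gp s (m + 3)) =O[𝓝 (0 : E)] fun x => ‖x - 0‖ ^ 2 := by
        refine Asymptotics.IsBigO.of_bound (C ^ 2 / 2) (Eventually.of_forall fun t => ?_)
        rw [sub_zero, Real.norm_eq_abs, abs_of_nonneg (F_nonneg _ _), Real.norm_eq_abs,
          abs_of_nonneg (by positivity)]
        unfold F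
        have h4 := pow_le_pow_left₀ (h.nonneg t) (h.upper t) 2
        nlinarith
      have h4 := h3.hasFDerivAt (𝕜 := ℝ) (by norm_num)
      exact h4.differentiableAt.hasFDerivAt
    · exact ((hcd x hx).differentiableAt (by norm_num)).hasFDerivAt
  · intro x hx
    have h1 := (hcd x hx).fderiv_right (m := 1) (by norm_num)
    exact (h1.differentiableAt (by norm_num)).hasFDerivAt

theorem exists_smooth [FiniteDimensional ℝ E] {g : E → ℝ} {c C : ℝ} (h : Gf g c C) (ε : ℝ)
    (hε : 0 < ε) :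
    ∃ (g' : E → ℝ) (c' C' : ℝ) (F1 : E → E →L[ℝ] ℝ) (F2 : E → E →L[ℝ] E →L[ℝ] ℝ),
      Gf g' c' C' ∧ Close ε g g' ∧ Smooth2 g' F1 F2 := by
  set k : ℝ := 1 / (1 + ε) with hk
  have hk0 : 0 < k := by positivity
  have hk1 : k < 1 := by
    rw [hk, div_lt_one (by positivity)]
    linarith
  obtain ⟨s, hs1, hs2⟩ := exists_finset h k hk1
  -- choose the exponent
  have hlim : Tendsto (fun m : ℕ => ((s.card : ℝ) + 1) ^ (1 / ((m + 3 : ℕ) : ℝ))) atTop (𝓝 1) := by
    have h1 : Tendsto (fun m : ℕ => 1 / ((m + 3 : ℕ) : ℝ)) atTop (𝓝 0) := by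
      have h2 : Tendsto (fun n : ℕ => 1 / (n : ℝ)) atTop (𝓝 0) := tendsto_one_div_atTop_nhds_zero_nat
      exact h2.comp (tendsto_add_atTop_nat 3)
    have h3 := (Real.continuousAt_const_rpow (a := (s.card : ℝ) + 1) (b := 0)
      (by positivity)).tendsto.comp h1
    rw [Real.rpow_zero] at h3
    exact h3
  obtain ⟨m, hm⟩ := (hlim.eventually_le_const (show (1 : ℝ) < 1 + ε by linarith)).exists
  have hcard : (s.card : ℝ) ^ (1 / ((m + 3 : ℕ) : ℝ)) ≤ 1 + ε := by
    refine le_trans (Real.rpow_le_rpow (by positivity) (by linarith) (by positivity)) hm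
  have hle : ∀ x, gp s (m + 3) x ≤ (1 + ε) * g x := by
    intro x
    refine (gp_le s (m + 3) (by omega) x (g x) (h.nonneg x) fun l hl => hs1 l hl x).trans ?_
    exact mul_le_mul_of_nonneg_right hcard (h.nonneg x)
  have hge : ∀ x, k * g x ≤ gp s (m + 3) x := by
    intro x
    by_cases hx : x = 0
    · rw [hx, h.zero, mul_zero]
      exact gp_nonneg _ _ _
    · obtain ⟨l, hl, h1⟩ := hs2 x hx
      exact h1.trans (gp_ge s (m + 3) (by omega) x l hl)
  have hG : Gf (gp s (m + 3)) (k * c) ((1 + ε) * C) := by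
    refine ⟨mul_pos hk0 h.cpos, mul_nonneg (by positivity) h.Cnn,
      gp_add_le s (m + 3) (by omega), fun t ht x => gp_smul s (m + 3) (by omega) t ht x, ?_, ?_⟩
    · intro x
      have h1 := h.lower x
      have h2 := hge x
      have h3 := mul_le_mul_of_nonneg_left h1 hk0.le
      linarith
    · intro x
      have h1 := h.upper x
      have h2 := hle x
      have h3 := mul_le_mul_of_nonneg_left h1 (show 0 ≤ 1 + ε by positivity)
      linarith
  refine ⟨gp s (m + 3), k * c, (1 + ε) * C, _, _, hG, ?_, smooth_gp s m _ _ hG⟩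
  intro x
  refine ⟨hle x, ?_⟩
  have h1 := hge x
  have h2 := mul_le_mul_of_nonneg_left h1 (show 0 ≤ 1 + ε by positivity)
  rw [hk, ← mul_assoc, mul_one_div, div_self (by positivity), one_mul] at h2
  exact h2

end

end Pool.Agent.Lib.MP_05553e_gt
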