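import Mathlib
import Pool.Agent.Lib.MP_05553e_gt.Cont

set_option autoImplicit false

open MeasureTheory Filter Topology Set Metric

namespace Pool.Agent.Lib.MP_05553e_gt

section gauge

variable {E : Type*} [NormedAddCommGroup E] [NormedSpace ℝ E]

theorem gauge_gf {s : Set E} {r R : ℝ} (hr : 0 < r) (hR : 0 < R) (hc : Convex ℝ s)
    (h1 : ball 0 r ⊆ s) (h2 : s ⊆ closedBall 0 R) : Gf (gauge s) (1 / R) (1 / r) where
  cpos := by positivity
  Cnn := by positivity
  add_le := by
    have h0 : s ∈ 𝓝 (0 : E) := mem_of_superset (ball_mem_nhds 0 hr) h1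
    exact gauge_add_le hc (absorbent_nhds_zero h0)
  smul := by
    intro t ht x
    rw [gauge_smul_of_nonneg ht, smul_eq_mul]
  lower := by
    intro x
    have h0 : s ∈ 𝓝 (0 : E) := mem_of_superset (ball_mem_nhds 0 hr) h1
    have h3 := le_gauge_of_subset_closedBall (absorbent_nhds_zero h0) hR.le h2 (x := x)
    calc 1 / R * ‖x‖ = ‖x‖ / R := by ring
      _ ≤ gauge s x := h3
  upper := by
    intro x
    have h3 := mul_gauge_le_norm h1 (x := x)
    calc gauge s x = (r * gauge s x) / r := by field_simp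
      _ ≤ ‖x‖ / r := by gcongr
      _ = 1 / r * ‖x‖ := by ring

theorem gauge_le_mul {s t : Set E} {B : ℝ} (hB : 0 ≤ B) (ht : Absorbent ℝ t)
    (h : ∀ x ∈ t, gauge s x ≤ B) (x : E) : gauge s x ≤ B * gauge t x := by
  have key : ∀ a : ℝ, gauge t x < a → gauge s x ≤ B * a := by
    intro a ha
    obtain ⟨b, hb0, hba, hx⟩ := exists_lt_of_gauge_lt ht ha
    obtain ⟨y, hy, rfl⟩ := hx
    rw [gauge_smul_of_nonneg hb0.le, smul_eq_mul]
    have h1 := h y hy
    calc b * gauge s y ≤ b * B := by gcongr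
      _ ≤ a * B := by gcongr
      _ = B * a := mul_comm _ _
  have l1 : Tendsto (fun a : ℝ => B * a) (𝓝[>] (gauge t x)) (𝓝 (B * gauge t x)) := by
    refine Tendsto.mono_left ?_ nhdsWithin_le_nhds
    exact (continuous_const.mul continuous_id).tendsto _
  refine ge_of_tendsto l1 ?_
  filter_upwards [self_mem_nhdsWithin] with a ha
  exact key a ha

/-- Bodies at small Hausdorff distance have multiplicatively close gauges. -/
theorem gauge_close {s t : Set E} {r R r' R' δ : ℝ} (hr : 0 < r) (hR : 0 < R) (hr' : 0 < r')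
    (hR' : 0 < R') (hcs : Convex ℝ s) (hct : Convex ℝ t) (hs1 : ball 0 r ⊆ s)
    (hs2 : s ⊆ closedBall 0 R) (ht1 : ball 0 r' ⊆ t) (ht2 : t ⊆ closedBall 0 R')
    (hδ0 : 0 ≤ δ) (hδ : δ < r) (h1 : ∀ x ∈ s, ∃ y ∈ t, dist x y ≤ δ)
    (h2 : ∀ y ∈ t, ∃ x ∈ s, dist y x ≤ δ) : Close (δ / (r - δ)) (gauge s) (gauge t) := by
  have gs := gauge_gf hr hR hcs hs1 hs2
  have gt := gauge_gf hr' hR' hct ht1 ht2
  have as : Absorbent ℝ s := absorbent_nhds_zero (mem_of_superset (ball_mem_nhds 0 hr) hs1)
  have at' : Absorbent ℝ t := absorbent_nhds_zero (mem_of_superset (ball_mem_nhds 0 hr') ht1)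
  have hrd : 0 < r - δ := by linarith
  intro x
  constructor
  · -- the set of admissible constants
    let A : Set ℝ := {B | 0 ≤ B ∧ ∀ z, gauge t z ≤ B * gauge s z}
    have hAne : A.Nonempty := by
      refine ⟨R / r', by positivity, fun z => ?_⟩
      have e1 := gt.upper z
      have e2 := gs.lower z
      calc gauge t z ≤ 1 / r' * ‖z‖ := e1
        _ = R / r' * (1 / R * ‖z‖) := by field_simp
        _ ≤ R / r' * gauge s z := by gcongr
    have hAbdd : BddBelow A := ⟨0, fun B hB => hB.1⟩
    have hAclosed : IsClosed A := by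
      have : A = Ici 0 ∩ ⋂ z, {B : ℝ | gauge t z ≤ B * gauge s z} := by
        ext B
        simp [A]
      rw [this]
      refine isClosed_Ici.inter (isClosed_iInter fun z => ?_)
      exact isClosed_le continuous_const (by fun_prop)
    have hmem := hAclosed.csInf_mem hAne hAbdd
    set B := sInf A with hB
    have step : (1 + B * (δ / r)) ∈ A := by
      refine ⟨by have := hmem.1; positivity, fun z => ?_⟩
      refine gauge_le_mul (by have := hmem.1; positivity) as (fun y hy => ?_) z
      obtain ⟨w, hw, hyw⟩ := h1 y hy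
      have e1 := gt.add_le w (y - w)
      rw [add_sub_cancel] at e1
      have e2 := gauge_le_one_of_mem hw
      have e3 := hmem.2 (y - w)
      have e4 := gs.upper (y - w)
      rw [← dist_eq_norm] at e4
      have e5 : gauge s (y - w) ≤ δ / r := by
        calc gauge s (y - w) ≤ 1 / r * dist y w := e4
          _ ≤ 1 / r * δ := by gcongr
          _ = δ / r := by ring
      have e6 : B * gauge s (y - w) ≤ B * (δ / r) := mul_le_mul_of_nonneg_left e5 hmem.1
      linarith
    have hle : B ≤ 1 + B * (δ / r) := csInf_le hAbdd step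
    have hB2 : B ≤ 1 + δ / (r - δ) := by
      have e1 : B * (r - δ) ≤ r := by
        have := mul_le_mul_of_nonneg_right hle hr.le
        have e2 : (1 + B * (δ / r)) * r = r + B * δ := by field_simp
        rw [e2] at this
        nlinarith
      have e3 : 1 + δ / (r - δ) = r / (r - δ) := by field_simp; ring
      rw [e3, le_div_iff₀ hrd]
      exact e1
    calc gauge t x ≤ B * gauge s x := hmem.2 x
      _ ≤ (1 + δ / (r - δ)) * gauge s x := by
        have := gauge_nonneg (s := s) x
        gcongr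
  · have e0 : gauge s x ≤ (1 + δ / r) * gauge t x := by
      refine gauge_le_mul (by positivity) at' (fun y hy => ?_) x
      obtain ⟨w, hw, hyw⟩ := h2 y hy
      have e1 := gs.add_le w (y - w)
      rw [add_sub_cancel] at e1
      have e2 := gauge_le_one_of_mem hw
      have e4 := gs.upper (y - w)
      rw [← dist_eq_norm] at e4
      have e5 : gauge s (y - w) ≤ δ / r := by
        calc gauge s (y - w) ≤ 1 / r * dist y w := e4
          _ ≤ 1 / r * δ := by gcongr
          _ = δ / r := by ring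
      linarith
    have e6 : δ / r ≤ δ / (r - δ) := by
      gcongr
      linarith
    calc gauge s x ≤ (1 + δ / r) * gauge t x := e0
      _ ≤ (1 + δ / (r - δ)) * gauge t x := by
        have := gauge_nonneg (s := t) x
        gcongr

theorem gauge_le_iff {s : Set E} (hc : Convex ℝ s) (hcl : IsClosed s) (h0 : s ∈ 𝓝 (0 : E)) (x : E)
    (t : ℝ) (ht : 0 < t) : gauge s x ≤ t ↔ t⁻¹ • x ∈ s := by
  have h1 : gauge s x ≤ t ↔ gauge s (t⁻¹ • x) ≤ 1 := by
    rw [gauge_smul_of_nonneg (by positivity), smul_eq_mul, inv_mul_le_iff₀ ht, mul_one]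
  rw [h1, gauge_le_one_iff_mem_closure hc h0, hcl.closure_eq]

theorem le_of_forall_pos_iff {p q : ℝ} (hq : 0 ≤ q) (h : ∀ t > 0, q ≤ t → p ≤ t) : p ≤ q := by
  refine le_of_forall_pos_le_add fun ε hε => ?_
  exact h (q + ε) (by linarith) (by linarith)

theorem gauge_union {s t : Set E} (hs : Convex ℝ s) (ht : Convex ℝ t) (hu : Convex ℝ (s ∪ t))
    (cs : IsClosed s) (ct : IsClosed t) (h0s : s ∈ 𝓝 (0 : E)) (h0t : t ∈ 𝓝 (0 : E)) (x : E) :
    gauge (s ∪ t) x = min (gauge s x) (gauge t x) := by
  have h0u : s ∪ t ∈ 𝓝 (0 : E) := mem_of_superset h0s subset_union_left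
  apply le_antisymm
  · apply le_min
    · exact gauge_mono (absorbent_nhds_zero h0s) subset_union_left x
    · exact gauge_mono (absorbent_nhds_zero h0t) subset_union_right x
  · refine le_of_forall_pos_iff (gauge_nonneg _) fun r hr h => ?_
    rw [gauge_le_iff hu (cs.union ct) h0u x r hr] at h
    rw [min_le_iff, gauge_le_iff hs cs h0s x r hr, gauge_le_iff ht ct h0t x r hr]
    exact h

theorem gauge_inter {s t : Set E} (hs : Convex ℝ s) (ht : Convex ℝ t)
    (cs : IsClosed s) (ct : IsClosed t) (h0s : s ∈ 𝓝 (0 : E)) (h0t : t ∈ 𝓝 (0 : E)) (x : E) :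
    gauge (s ∩ t) x = max (gauge s x) (gauge t x) := by
  have h0u : s ∩ t ∈ 𝓝 (0 : E) := inter_mem h0s h0t
  apply le_antisymm
  · refine le_of_forall_pos_iff (le_max_of_le_left (gauge_nonneg _)) fun r hr h => ?_
    rw [gauge_le_iff (hs.inter ht) (cs.inter ct) h0u x r hr]
    rw [max_le_iff, gauge_le_iff hs cs h0s x r hr, gauge_le_iff ht ct h0t x r hr] at h
    exact h
  · apply max_le
    · exact gauge_mono (absorbent_nhds_zero h0u) inter_subset_left x
    · exact gauge_mono (absorbent_nhds_zero h0u) inter_subset_right x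

theorem gauge_image (L : E ≃ₗ[ℝ] E) (s : Set E) (x : E) : gauge (L '' s) (L x) = gauge s x := by
  rw [gauge_def, gauge_def]
  congr 1
  ext r
  simp only [mem_ofPred_eq]
  refine and_congr_right fun _ => ?_
  constructor
  · rintro ⟨y, ⟨z, hz, rfl⟩, hy⟩
    refine ⟨z, hz, ?_⟩
    simp only [← map_smul] at hy
    exact L.injective hy
  · rintro ⟨y, hy, rfl⟩
    exact ⟨L y, ⟨y, hy, rfl⟩, by simp⟩

end gauge

end Pool.Agent.Lib.MP_05553e_gt
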