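import Mathlib

set_option autoImplicit false

namespace Pool.Agent.Lib.MP_05553e_gt

/-- The real vector space `V = ℝ ^ n` (with its Euclidean norm, which is only used to define the
Hausdorff metric). -/
abbrev V (n : ℕ) := EuclideanSpace ℝ (Fin n)

/-- The group `SL(V) = SL(n, ℝ)`. -/
abbrev SL (n : ℕ) := Matrix.SpecialLinearGroup (Fin n) ℝ

/-- The natural action of `SL(n, ℝ)` on `ℝ ^ n`: multiplication of a column vector by a matrix. -/
noncomputable def act {n : ℕ} (g : SL n) : V n →ₗ[ℝ] V n := Matrix.toEuclideanLin g.1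

/-- `K₀(V)`: the convex bodies in `V` containing the origin in their interior, with the Hausdorff
metric (`ConvexBody V` is Mathlib's type of nonempty compact convex subsets of `V`, with the
Hausdorff metric). -/
abbrev K0 (n : ℕ) := {K : ConvexBody (V n) // (0 : V n) ∈ interior (K : Set (V n))}

section

variable {n : ℕ} {W : Type*}

/-- A representation of `SL(n, ℝ)` is rational if its matrix coefficients are polynomial functions of
the matrix entries. -/
def IsRational [AddCommGroup W] [Module ℝ W] (ρ : Representation ℝ (SL n) W) : Prop :=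
  ∀ (φ : Module.Dual ℝ W) (w : W), ∃ P : MvPolynomial (Fin n × Fin n) ℝ,
    ∀ g : SL n, φ (ρ g w) = MvPolynomial.eval (fun ij => g.1 ij.1 ij.2) P

/-- `ρ` has a highest weight vector of weight `∑ i, p i ε_i`: a nonzero vector fixed by all upper
unitriangular matrices, on which a diagonal matrix `diag (t_1, …, t_n)` of determinant one acts as
multiplication by `∏ i, t_i ^ (p i)`. (For an irreducible rational `ρ` this says that the highest
weight of `ρ` is `∑ i, p i ε_i` modulo `ε_1 + ⋯ + ε_n`.) -/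
def HasHighestWeight [AddCommGroup W] [Module ℝ W] (ρ : Representation ℝ (SL n) W)
    (p : Fin n → ℤ) : Prop :=
  ∃ w : W, w ≠ 0 ∧
    (∀ g : SL n, (∀ i j, j < i → g.1 i j = 0) → (∀ i, g.1 i i = 1) → ρ g w = w) ∧
    ∀ g : SL n, (∀ i j, i ≠ j → g.1 i j = 0) → ρ g w = (∏ i, (g.1 i i) ^ (p i)) • w

/-- `ρ` is admissible: its highest weight is `(p + q) ε_1 + q (ε_2 + ⋯ + ε_{n-1})` for some natural
numbers `p` and `q`. -/
def IsAdmissible [AddCommGroup W] [Module ℝ W] (ρ : Representation ℝ (SL n) W) : Prop :=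
  ∃ p q : ℕ, HasHighestWeight ρ
    (fun i => if (i : ℕ) = 0 then (p : ℤ) + q else if (i : ℕ) + 1 = n then 0 else (q : ℤ))

/-- `Φ` is a Minkowski valuation on `K₀(V)`. -/
def IsMinkowskiValuation [NormedAddCommGroup W] [NormedSpace ℝ W] (Φ : K0 n → ConvexBody W) :
    Prop :=
  ∀ K L M N : K0 n, (M.1 : Set (V n)) = (K.1 : Set (V n)) ∪ (L.1 : Set (V n)) →
    (N.1 : Set (V n)) = (K.1 : Set (V n)) ∩ (L.1 : Set (V n)) → Φ M + Φ N = Φ K + Φ L

/-- `Φ` is invariant: `Φ (g K) = ρ(g) (Φ K)`. -/
def IsInvariant [NormedAddCommGroup W] [NormedSpace ℝ W] (ρ : Representation ℝ (SL n) W)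
    (Φ : K0 n → ConvexBody W) : Prop :=
  ∀ (g : SL n) (K M : K0 n), (M.1 : Set (V n)) = act g '' (K.1 : Set (V n)) →
    (Φ M : Set W) = ρ g '' (Φ K : Set W)

end

end Pool.Agent.Lib.MP_05553e_gt
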