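import Mathlib
import Pool.Agent.Lib.MP_05553e_gt.Smooth
import Pool.Agent.Lib.MP_05553e_gt.Defs

set_option autoImplicit false

open MeasureTheory Filter Topology Set

namespace Pool.Agent.Lib.MP_05553e_gt

/-! ### Finite-dimensional spaces of functions -/

section functions

variable {X : Type*}

/-- The evaluation functional at `x`. -/
def evW (W : Submodule ℝ (X → ℝ)) (x : X) : Module.Dual ℝ W where
  toFun f := (f : X → ℝ) x
  map_add' _ _ := rfl
  map_smul' _ _ := rfl

theorem evW_apply (W : Submodule ℝ (X → ℝ)) (x : X) (f : W) : evW W x f = (f : X → ℝ) x := rfl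

theorem evW_span (W : Submodule ℝ (X → ℝ)) [FiniteDimensional ℝ W] :
    Submodule.span ℝ (range (evW W)) = ⊤ := by
  by_contra h
  obtain ⟨ψ, hψ, hle⟩ := Submodule.exists_le_ker_of_lt_top _ (lt_top_iff_ne_top.2 h)
  apply hψ
  obtain ⟨w, rfl⟩ := (Module.evalEquiv ℝ W).surjective ψ
  have hw : w = 0 := by
    ext x
    have h1 : evW W x ∈ Submodule.span ℝ (range (evW W)) := Submodule.subset_span ⟨x, rfl⟩
    have h2 := hle h1
    rw [LinearMap.mem_ker] at h2
    exact h2
  rw [hw, map_zero]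

theorem exists_coord (W : Submodule ℝ (X → ℝ)) [FiniteDimensional ℝ W] (φ : Module.Dual ℝ W) :
    ∃ c : X →₀ ℝ, ∀ f : W, φ f = ∑ x ∈ c.support, c x * (f : X → ℝ) x := by
  have h : φ ∈ Submodule.span ℝ (range (evW W)) := by
    rw [evW_span]
    trivial
  obtain ⟨c, hc⟩ := Finsupp.mem_span_range_iff_exists_finsupp.1 h
  refine ⟨c, fun f => ?_⟩
  rw [← hc]
  simp [Finsupp.sum, evW_apply]

theorem integral_mem (W : Submodule ℝ (X → ℝ)) [FiniteDimensional ℝ W] {Y : Type*}
    [MeasurableSpace Y] (μ : Measure Y) (h : Y → X → ℝ) (hW : ∀ y, h y ∈ W)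
    (hi : ∀ x, Integrable (fun y => h y x) μ) : (fun x => ∫ y, h y x ∂μ) ∈ W := by
  set b := Module.finBasis ℝ W with hb
  choose c hc using fun j => exists_coord W (b.coord j)
  have hint : ∀ j, Integrable (fun y => b.coord j ⟨h y, hW y⟩) μ := by
    intro j
    have e : (fun y => b.coord j ⟨h y, hW y⟩) = fun y => ∑ x ∈ (c j).support, c j x * h y x := by
      funext y
      exact hc j ⟨h y, hW y⟩
    rw [e]
    exact integrable_finsetSum _ fun x _ => (hi x).const_mul _
  have key : (fun x => ∫ y, h y x ∂μ) =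
      ∑ j, (∫ y, b.coord j ⟨h y, hW y⟩ ∂μ) • ((b j : W) : X → ℝ) := by
    funext x
    have e : ∀ y, h y x = ∑ j, b.coord j ⟨h y, hW y⟩ * ((b j : W) : X → ℝ) x := by
      intro y
      have h1 := b.sum_repr ⟨h y, hW y⟩
      have h2 := congrArg (fun f : W => (f : X → ℝ) x) h1
      simp only [Submodule.coe_sum, Submodule.coe_smul, Finset.sum_apply, Pi.smul_apply,
        smul_eq_mul] at h2
      exact h2.symm
    simp_rw [e]
    rw [integral_finsetSum _ fun j _ => (hint j).mul_const _]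
    simp only [Finset.sum_apply, Pi.smul_apply, smul_eq_mul]
    refine Finset.sum_congr rfl fun j _ => ?_
    rw [integral_mul_const]
  rw [key]
  exact Submodule.sum_mem _ fun j _ => W.smul_mem _ (b j).2

theorem limit_mem (W : Submodule ℝ (X → ℝ)) [FiniteDimensional ℝ W] {ι : Type*} {l : Filter ι}
    [l.NeBot] (f : ι → X → ℝ) (hf : ∀ i, f i ∈ W) (f₀ : X → ℝ)
    (h : ∀ x, Tendsto (fun i => f i x) l (𝓝 (f₀ x))) : f₀ ∈ W := by
  have hc : IsClosed (W : Set (X → ℝ)) := Submodule.closed_of_finiteDimensional W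
  exact hc.mem_of_tendsto (tendsto_pi_nhds.2 h) (Eventually.of_forall hf)

end functions

/-! ### The space of curvature functions -/

/-- The square of the `2 × 2` minor of two covectors. -/
noncomputable def sq {n : ℕ} (u w : V n) (p : V n × V n) : ℝ :=
  (inner ℝ u p.1 * inner ℝ w p.2 - inner ℝ u p.2 * inner ℝ w p.1) ^ 2

/-- The space of sectional curvature functions of algebraic curvature tensors. -/
noncomputable def WW (n : ℕ) : Submodule ℝ (V n × V n → ℝ) :=
  Submodule.span ℝ (range fun q : V n × V n => sq q.1 q.2)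

theorem sq_mem {n : ℕ} (u w : V n) : sq u w ∈ WW n := Submodule.subset_span ⟨(u, w), rfl⟩

/-- The monomials. -/
def mono {n : ℕ} (t : Fin n × Fin n × Fin n × Fin n) (p : V n × V n) : ℝ :=
  p.1 t.1 * p.1 t.2.1 * (p.2 t.2.2.1 * p.2 t.2.2.2)

/-- The span of the monomials. -/
def PP (n : ℕ) : Submodule ℝ (V n × V n → ℝ) := Submodule.span ℝ (range (mono (n := n)))

instance (n : ℕ) : FiniteDimensional ℝ (PP n) := FiniteDimensional.span_of_finite ℝ (finite_range _)

theorem inner_eq_sum {n : ℕ} (u a : V n) : inner ℝ u a = ∑ i, u i * a i := by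
  rw [PiLp.inner_apply]
  refine Finset.sum_congr rfl fun i _ => ?_
  simp [mul_comm]

theorem prod4_mem {n : ℕ} (p q r s : V n) :
    (fun x : V n × V n => inner ℝ p x.1 * inner ℝ q x.1 * (inner ℝ r x.2 * inner ℝ s x.2)) ∈
      PP n := by
  have e : (fun x : V n × V n => inner ℝ p x.1 * inner ℝ q x.1 *
      (inner ℝ r x.2 * inner ℝ s x.2)) =
      ∑ t : Fin n × Fin n × Fin n × Fin n,
        (p t.1 * q t.2.1 * (r t.2.2.1 * s t.2.2.2)) • mono t := by
    funext x
    simp only [inner_eq_sum, Finset.sum_apply, Pi.smul_apply, smul_eq_mul, mono,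
      Fintype.sum_prod_type]
    rw [Finset.sum_mul_sum, Finset.sum_mul_sum, Finset.sum_mul]
    refine Finset.sum_congr rfl fun i _ => ?_
    rw [Finset.sum_mul]
    refine Finset.sum_congr rfl fun j _ => ?_
    rw [Finset.mul_sum]
    refine Finset.sum_congr rfl fun k _ => ?_
    rw [Finset.mul_sum]
    refine Finset.sum_congr rfl fun l _ => ?_
    ring
  rw [e]
  exact Submodule.sum_mem _ fun t _ => Submodule.smul_mem _ _ (Submodule.subset_span ⟨t, rfl⟩)


theorem WW_le (n : ℕ) : WW n ≤ PP n := by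
  unfold WW
  rw [Submodule.span_le]
  rintro _ ⟨⟨u, w⟩, rfl⟩
  have h1 := prod4_mem u u w w
  have h2 := prod4_mem u w u w
  have h3 := prod4_mem w w u u
  have e : sq u w = (fun x : V n × V n => inner ℝ u x.1 * inner ℝ u x.1 *
      (inner ℝ w x.2 * inner ℝ w x.2)) - (2 : ℝ) • (fun x : V n × V n =>
      inner ℝ u x.1 * inner ℝ w x.1 * (inner ℝ u x.2 * inner ℝ w x.2)) +
      (fun x : V n × V n => inner ℝ w x.1 * inner ℝ w x.1 *
      (inner ℝ u x.2 * inner ℝ u x.2)) := by
    funext x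
    simp only [sq, Pi.add_apply, Pi.sub_apply, Pi.smul_apply, smul_eq_mul]
    ring
  change sq u w ∈ PP n
  rw [e]
  exact Submodule.add_mem _ (Submodule.sub_mem _ h1 (Submodule.smul_mem _ _ h2)) h3

instance (n : ℕ) : FiniteDimensional ℝ (WW n) := Submodule.finiteDimensional_of_le (WW_le n)

theorem WW_induction {n : ℕ} {p : (V n × V n → ℝ) → Prop} (h1 : ∀ u w, p (sq u w)) (h0 : p 0)
    (hadd : ∀ f g, p f → p g → p (f + g)) (hsmul : ∀ (c : ℝ) f, p f → p (c • f))
    (f : V n × V n → ℝ) (hf : f ∈ WW n) : p f := by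
  refine Submodule.span_induction (p := fun f _ => p f) ?_ h0 (fun f g _ _ => hadd f g)
    (fun c f _ => hsmul c f) hf
  rintro _ ⟨⟨u, w⟩, rfl⟩
  exact h1 u w

theorem WW_continuous {n : ℕ} (f : V n × V n → ℝ) (hf : f ∈ WW n) : Continuous f := by
  refine WW_induction (p := fun f => Continuous f) ?_ ?_ ?_ ?_ f hf
  · intro u w
    unfold sq
    fun_prop
  · exact continuous_const
  · intro f g h1 h2
    exact h1.add h2
  · intro c f h1
    exact h1.const_smul c

theorem WW_transform {n : ℕ} (f : V n × V n → ℝ) (hf : f ∈ WW n) (a b : V n) (α β γ δ : ℝ) :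
    f (α • a + β • b, γ • a + δ • b) = (α * δ - β * γ) ^ 2 * f (a, b) := by
  refine WW_induction (p := fun f => f (α • a + β • b, γ • a + δ • b) =
    (α * δ - β * γ) ^ 2 * f (a, b)) ?_ ?_ ?_ ?_ f hf
  · intro u w
    simp only [sq, inner_add_right, inner_smul_right]
    ring
  · simp
  · intro f g h1 h2
    simp only [Pi.add_apply, h1, h2]
    ring
  · intro c f h1
    simp only [Pi.smul_apply, h1, smul_eq_mul]
    ring

/-- Any symmetric bilinear form gives an element of `WW n`. -/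
theorem decomp_mem {n : ℕ} {κ : Type*} [Fintype κ] (c : κ → ℝ) (v : κ → V n) :
    (fun p : V n × V n => (∑ k, c k * (inner ℝ (v k) p.1 * inner ℝ (v k) p.1)) *
      (∑ k, c k * (inner ℝ (v k) p.2 * inner ℝ (v k) p.2)) -
      (∑ k, c k * (inner ℝ (v k) p.1 * inner ℝ (v k) p.2)) ^ 2) ∈ WW n := by
  have e : (fun p : V n × V n => (∑ k, c k * (inner ℝ (v k) p.1 * inner ℝ (v k) p.1)) *
      (∑ k, c k * (inner ℝ (v k) p.2 * inner ℝ (v k) p.2)) -
      (∑ k, c k * (inner ℝ (v k) p.1 * inner ℝ (v k) p.2)) ^ 2) =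
      ∑ k, ∑ l, (c k * c l / 2) • sq (v k) (v l) := by
    funext p
    simp only [Finset.sum_apply, Pi.smul_apply, smul_eq_mul, sq]
    have h1 : (∑ k, c k * (inner ℝ (v k) p.1 * inner ℝ (v k) p.1)) *
      (∑ k, c k * (inner ℝ (v k) p.2 * inner ℝ (v k) p.2)) =
      ∑ k, ∑ l, c k * c l * ((inner ℝ (v k) p.1 * inner ℝ (v k) p.1) *
        (inner ℝ (v l) p.2 * inner ℝ (v l) p.2)) := by
      rw [Finset.sum_mul_sum]
      refine Finset.sum_congr rfl fun k _ => Finset.sum_congr rfl fun l _ => ?_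
      ring
    have h2 : (∑ k, c k * (inner ℝ (v k) p.1 * inner ℝ (v k) p.1)) *
      (∑ k, c k * (inner ℝ (v k) p.2 * inner ℝ (v k) p.2)) =
      ∑ k, ∑ l, c k * c l * ((inner ℝ (v l) p.1 * inner ℝ (v l) p.1) *
        (inner ℝ (v k) p.2 * inner ℝ (v k) p.2)) := by
      rw [h1, Finset.sum_comm]
      refine Finset.sum_congr rfl fun k _ => Finset.sum_congr rfl fun l _ => ?_
      ring
    have h3 : (∑ k, c k * (inner ℝ (v k) p.1 * inner ℝ (v k) p.2)) ^ 2 =
      ∑ k, ∑ l, c k * c l * ((inner ℝ (v k) p.1 * inner ℝ (v k) p.2) *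
        (inner ℝ (v l) p.1 * inner ℝ (v l) p.2)) := by
      rw [pow_two, Finset.sum_mul_sum]
      refine Finset.sum_congr rfl fun k _ => Finset.sum_congr rfl fun l _ => ?_
      ring
    have h4 : (∑ k, c k * (inner ℝ (v k) p.1 * inner ℝ (v k) p.1)) *
      (∑ k, c k * (inner ℝ (v k) p.2 * inner ℝ (v k) p.2)) =
      ((∑ k, ∑ l, c k * c l * ((inner ℝ (v k) p.1 * inner ℝ (v k) p.1) *
        (inner ℝ (v l) p.2 * inner ℝ (v l) p.2))) +
      (∑ k, ∑ l, c k * c l * ((inner ℝ (v l) p.1 * inner ℝ (v l) p.1) *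
        (inner ℝ (v k) p.2 * inner ℝ (v k) p.2)))) / 2 := by
      rw [← h1, ← h2]
      ring
    rw [h4, h3, ← Finset.sum_add_distrib, Finset.sum_div, ← Finset.sum_sub_distrib]
    refine Finset.sum_congr rfl fun k _ => ?_
    rw [← Finset.sum_add_distrib, Finset.sum_div, ← Finset.sum_sub_distrib]
    refine Finset.sum_congr rfl fun l _ => ?_
    ring
  rw [e]
  exact Submodule.sum_mem _ fun k _ => Submodule.sum_mem _ fun l _ =>
    Submodule.smul_mem _ _ (sq_mem _ _)

theorem bilin_mem {n : ℕ} (H : V n →L[ℝ] V n →L[ℝ] ℝ) (hs : ∀ a b, H a b = H b a) :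
    (fun p : V n × V n => H p.1 p.1 * H p.2 p.2 - (H p.1 p.2) ^ 2) ∈ WW n := by
  classical
  let e : Fin n → V n := fun i => EuclideanSpace.single i 1
  let κ := (Fin n × Fin n) × Fin 3
  let c : κ → ℝ := fun k => H (e k.1.1) (e k.1.2) / 2 * ![1, -1, -1] k.2
  let v : κ → V n := fun k => ![e k.1.1 + e k.1.2, e k.1.1, e k.1.2] k.2
  have key : ∀ a b, H a b = ∑ k, c k * (inner ℝ (v k) a * inner ℝ (v k) b) := by
    intro a b
    have ha : a = ∑ i, a i • e i := by
      ext j
      simp [e, Pi.single_apply]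
    have hb : b = ∑ i, b i • e i := by
      ext j
      simp [e, Pi.single_apply]
    have h1 : H a b = ∑ i, ∑ j, a i * b j * H (e i) (e j) := by
      conv_lhs => rw [ha, hb]
      simp only [map_sum, map_smul, sum_apply, smul_apply, smul_eq_mul]
      rw [Finset.sum_comm]
      refine Finset.sum_congr rfl fun i _ => ?_
      rw [Finset.mul_sum]
      refine Finset.sum_congr rfl fun j _ => ?_
      ring
    have h2 : H a b = ∑ i, ∑ j, a j * b i * H (e i) (e j) := by
      rw [h1, Finset.sum_comm]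
      refine Finset.sum_congr rfl fun i _ => Finset.sum_congr rfl fun j _ => ?_
      rw [hs (e j) (e i)]
    have h3 : H a b = (∑ i, ∑ j, (a i * b j + a j * b i) * H (e i) (e j)) / 2 := by
      have : (∑ i, ∑ j, (a i * b j + a j * b i) * H (e i) (e j)) = H a b + H a b := by
        conv_rhs => rw [h1]
        conv_rhs => rw [← h1]
        nth_rewrite 1 [h1]
        rw [h2, ← Finset.sum_add_distrib]
        refine Finset.sum_congr rfl fun i _ => ?_
        rw [← Finset.sum_add_distrib]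
        refine Finset.sum_congr rfl fun j _ => ?_
        ring
      rw [this]
      ring
    rw [h3, Finset.sum_div]
    simp only [κ, Fintype.sum_prod_type, Fin.sum_univ_three, c, v]
    refine Finset.sum_congr rfl fun i _ => ?_
    rw [Finset.sum_div]
    refine Finset.sum_congr rfl fun j _ => ?_
    simp [e, inner_add_left, EuclideanSpace.inner_single_left]
    ring
  have e2 : (fun p : V n × V n => H p.1 p.1 * H p.2 p.2 - (H p.1 p.2) ^ 2) =
      (fun p : V n × V n => (∑ k, c k * (inner ℝ (v k) p.1 * inner ℝ (v k) p.1)) *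
      (∑ k, c k * (inner ℝ (v k) p.2 * inner ℝ (v k) p.2)) -
      (∑ k, c k * (inner ℝ (v k) p.1 * inner ℝ (v k) p.2)) ^ 2) := by
    funext p
    rw [key p.1 p.1, key p.2 p.2, key p.1 p.2]
  rw [e2]
  exact decomp_mem c v

/-! ### The action of `SL n` -/

theorem act_apply {n : ℕ} (g : SL n) (x : V n) (i : Fin n) :
    act g x i = ∑ j, g.1 i j * x j := by
  unfold act
  rfl

theorem act_mul {n : ℕ} (g h : SL n) (x : V n) : act (g * h) x = act g (act h x) := by
  unfold act
  simp only [Matrix.SpecialLinearGroup.coe_mul, Matrix.toLpLin_apply,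
    Matrix.mulVec_mulVec]

theorem act_one {n : ℕ} (x : V n) : act (1 : SL n) x = x := by
  unfold act
  simp

theorem act_inv_act {n : ℕ} (g : SL n) (x : V n) : act g⁻¹ (act g x) = x := by
  rw [← act_mul, inv_mul_cancel, act_one]

theorem act_act_inv {n : ℕ} (g : SL n) (x : V n) : act g (act g⁻¹ x) = x := by
  rw [← act_mul, mul_inv_cancel, act_one]

theorem inner_act {n : ℕ} (g : SL n) (u x : V n) :
    inner ℝ u (act g x) = inner ℝ (act g.transpose u) x := by
  rw [inner_eq_sum, inner_eq_sum]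
  simp only [act_apply, Finset.mul_sum, Finset.sum_mul]
  rw [Finset.sum_comm]
  refine Finset.sum_congr rfl fun i _ => Finset.sum_congr rfl fun j _ => ?_
  simp only [Matrix.SpecialLinearGroup.coe_transpose, Matrix.transpose_apply]
  ring

/-- The action on functions. -/
noncomputable def RR {n : ℕ} (g : SL n) : (V n × V n → ℝ) →ₗ[ℝ] (V n × V n → ℝ) where
  toFun f p := f (act g⁻¹ p.1, act g⁻¹ p.2)
  map_add' _ _ := rfl
  map_smul' _ _ := rfl

theorem RR_apply {n : ℕ} (g : SL n) (f : V n × V n → ℝ) (p : V n × V n) :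
    RR g f p = f (act g⁻¹ p.1, act g⁻¹ p.2) := rfl

theorem RR_sq {n : ℕ} (g : SL n) (u w : V n) :
    RR g (sq u w) = sq (act g⁻¹.transpose u) (act g⁻¹.transpose w) := by
  funext p
  rw [RR_apply]
  simp only [sq, inner_act]

theorem RR_mem {n : ℕ} (g : SL n) (f : V n × V n → ℝ) (hf : f ∈ WW n) : RR g f ∈ WW n := by
  refine WW_induction (p := fun f => RR g f ∈ WW n) ?_ ?_ ?_ ?_ f hf
  · intro u w
    rw [RR_sq]
    exact sq_mem _ _
  · rw [map_zero]
    exact Submodule.zero_mem _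
  · intro f f' h1 h2
    rw [map_add]
    exact Submodule.add_mem _ h1 h2
  · intro c f h1
    rw [map_smul]
    exact Submodule.smul_mem _ _ h1

/-- The representation of `SL n` on `WW n`. -/
noncomputable def rho {n : ℕ} : Representation ℝ (SL n) (WW n) where
  toFun g := (RR g).restrict (RR_mem g)
  map_one' := by
    ext f p
    simp [RR_apply, act_one]
  map_mul' g h := by
    ext f p
    simp [RR_apply, act_mul]

theorem rho_apply {n : ℕ} (g : SL n) (f : WW n) (p : V n × V n) :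
    (rho g f : V n × V n → ℝ) p = (f : V n × V n → ℝ) (act g⁻¹ p.1, act g⁻¹ p.2) := rfl

/-! ### Transitivity -/

theorem exists_SL_of_linearMap {n : ℕ} (L : V n →ₗ[ℝ] V n) (h : LinearMap.det L = 1) :
    ∃ g : SL n, act g = L := by
  refine ⟨⟨Matrix.toEuclideanLin.symm L, ?_⟩, ?_⟩
  · rw [← h, ← LinearMap.det_toMatrix (EuclideanSpace.basisFun (Fin n) ℝ).toBasis L]
    congr 1
  · unfold act
    simp

theorem exists_equiv {n : ℕ} (a b c d : V n) (h1 : LinearIndependent ℝ ![a, b])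
    (h2 : LinearIndependent ℝ ![c, d]) : ∃ L : V n ≃ₗ[ℝ] V n, L a = c ∧ L b = d := by
  classical
  have s1 := h1.linearIndepOn_id
  have s2 := h2.linearIndepOn_id
  let B1 := Module.Basis.extend s1
  let B2 := Module.Basis.extend s2
  have ma : a ∈ s1.extend (subset_univ _) := s1.subset_extend _ ⟨0, rfl⟩
  have mb : b ∈ s1.extend (subset_univ _) := s1.subset_extend _ ⟨1, rfl⟩
  have mc : c ∈ s2.extend (subset_univ _) := s2.subset_extend _ ⟨0, rfl⟩
  have md : d ∈ s2.extend (subset_univ _) := s2.subset_extend _ ⟨1, rfl⟩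
  have hab : a ≠ b := fun h => by
    have := h1.injective (a₁ := 0) (a₂ := 1) (by simpa using h)
    exact absurd this (by decide)
  have hcd : c ≠ d := fun h => by
    have := h2.injective (a₁ := 0) (a₂ := 1) (by simpa using h)
    exact absurd this (by decide)
  let e := B1.indexEquiv B2
  let σ1 := e.trans (Equiv.swap (e ⟨a, ma⟩) ⟨c, mc⟩)
  have hσ1 : σ1 ⟨a, ma⟩ = ⟨c, mc⟩ := by
    simp [σ1]
  let σ2 := σ1.trans (Equiv.swap (σ1 ⟨b, mb⟩) ⟨d, md⟩)
  have hσb : σ2 ⟨b, mb⟩ = ⟨d, md⟩ := by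
    simp [σ2]
  have hσa : σ2 ⟨a, ma⟩ = ⟨c, mc⟩ := by
    change Equiv.swap (σ1 ⟨b, mb⟩) ⟨d, md⟩ (σ1 ⟨a, ma⟩) = ⟨c, mc⟩
    rw [hσ1]
    apply Equiv.swap_apply_of_ne_of_ne
    · rw [← hσ1]
      intro h
      have h3 := σ1.injective h
      exact hab (congrArg Subtype.val h3)
    · intro h
      exact hcd (congrArg Subtype.val h)
  refine ⟨B1.equiv B2 σ2, ?_, ?_⟩
  · have k := B1.equiv_apply ⟨a, ma⟩ B2 σ2
    have e1 : B1 ⟨a, ma⟩ = a := Module.Basis.extend_apply_self s1 ⟨a, ma⟩
    have e2 : B2 ⟨c, mc⟩ = c := Module.Basis.extend_apply_self s2 ⟨c, mc⟩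
    rw [hσa, e1, e2] at k
    exact k
  · have k := B1.equiv_apply ⟨b, mb⟩ B2 σ2
    have e1 : B1 ⟨b, mb⟩ = b := Module.Basis.extend_apply_self s1 ⟨b, mb⟩
    have e2 : B2 ⟨d, md⟩ = d := Module.Basis.extend_apply_self s2 ⟨d, md⟩
    rw [hσb, e1, e2] at k
    exact k

/-- The standard basis vectors. -/
noncomputable def ee {n : ℕ} (i : Fin n) : V n := EuclideanSpace.single i 1

theorem ee_apply {n : ℕ} (i j : Fin n) : ee i j = if j = i then 1 else 0 := by
  simp [ee]

theorem inner_ee {n : ℕ} (i : Fin n) (x : V n) : inner ℝ (ee i) x = x i := by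
  rw [inner_eq_sum]
  simp [ee_apply]

theorem ee_indep {n : ℕ} (i j : Fin n) (h : i ≠ j) : LinearIndependent ℝ ![ee i, ee j] := by
  rw [LinearIndependent.pair_iff]
  intro s t hst
  have h1 := congrArg (fun x : V n => x i) hst
  have h2 := congrArg (fun x : V n => x j) hst
  simp [ee_apply, h, h.symm] at h1 h2
  exact ⟨h1, h2⟩

theorem exists_SL {n : ℕ} (i j k : Fin n) (hij : i ≠ j) (hik : i ≠ k) (hjk : j ≠ k) (c d : V n)
    (h : LinearIndependent ℝ ![c, d]) : ∃ g : SL n, act g (ee i) = c ∧ act g (ee j) = d := by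
  obtain ⟨L, h1, h2⟩ := exists_equiv (ee i) (ee j) c d (ee_indep i j hij) h
  have hdet : LinearMap.det (L : V n →ₗ[ℝ] V n) ≠ 0 := L.isUnit_det'.ne_zero
  set δ := LinearMap.det (L : V n →ₗ[ℝ] V n) with hδ
  let α : V n →ₗ[ℝ] ℝ := (δ⁻¹ - 1) • (EuclideanSpace.proj k : V n →L[ℝ] ℝ).toLinearMap
  let D : V n →ₗ[ℝ] V n := LinearMap.id + α.smulRight (ee k) + (0 : V n →ₗ[ℝ] ℝ).smulRight 0
  have hα : ∀ x, α x = (δ⁻¹ - 1) * x k := fun x => rfl
  have hD : LinearMap.det D = δ⁻¹ := by
    rw [det_rank_two, hα, ee_apply]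
    simp
  have hDx : ∀ x : V n, x k = 0 → D x = x := by
    intro x hx
    simp [D, hα, hx]
  obtain ⟨g, hg⟩ := exists_SL_of_linearMap ((L : V n →ₗ[ℝ] V n) ∘ₗ D) (by
    rw [LinearMap.det_comp, hD, mul_inv_cancel₀ hdet])
  refine ⟨g, ?_, ?_⟩
  · rw [hg, LinearMap.comp_apply, hDx _ (by rw [ee_apply, if_neg hik.symm])]
    exact h1
  · rw [hg, LinearMap.comp_apply, hDx _ (by rw [ee_apply, if_neg hjk.symm])]
    exact h2

/-! ### Irreducibility -/

theorem WW_dep {n : ℕ} (f : V n × V n → ℝ) (hf : f ∈ WW n) (a b : V n)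
    (h : ¬ LinearIndependent ℝ ![a, b]) : f (a, b) = 0 := by
  rw [LinearIndependent.pair_iff] at h
  push Not at h
  obtain ⟨s, t, hst, hne⟩ := h
  by_cases hs : s = 0
  · have ht := hne hs
    rw [hs, zero_smul, zero_add] at hst
    have hb : b = 0 := (smul_eq_zero.1 hst).resolve_left ht
    have h1 := WW_transform f hf a a 1 0 0 0
    simp at h1
    rw [hb]
    exact h1
  · have ha : a = (-t / s) • b := by
      have h2 : s • a = -(t • b) := eq_neg_of_add_eq_zero_left hst
      have h3 : a = s⁻¹ • (s • a) := by rw [smul_smul, inv_mul_cancel₀ hs, one_smul]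
      rw [h3, h2]
      module
    have h1 := WW_transform f hf b b (-t / s) 0 1 0
    simp at h1
    rw [ha]
    simpa using h1

theorem sq_dep {n : ℕ} (u w : V n) (h : ¬ LinearIndependent ℝ ![u, w]) : sq u w = 0 := by
  rw [LinearIndependent.pair_iff] at h
  push Not at h
  obtain ⟨s, t, hst, hne⟩ := h
  funext p
  have h1 : s * inner ℝ u p.1 + t * inner ℝ w p.1 = 0 := by
    have := congrArg (fun x => inner ℝ x p.1) hst
    simpa [inner_add_left, inner_smul_left] using this
  have h2 : s * inner ℝ u p.2 + t * inner ℝ w p.2 = 0 := by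
    have := congrArg (fun x => inner ℝ x p.2) hst
    simpa [inner_add_left, inner_smul_left] using this
  simp only [sq, Pi.zero_apply]
  have h3 : inner ℝ u p.1 * inner ℝ w p.2 - inner ℝ u p.2 * inner ℝ w p.1 = 0 := by
    by_cases hs : s = 0
    · have ht := hne hs
      rw [hs] at h1 h2
      simp [ht] at h1 h2
      rw [h1, h2]
      ring
    · have h4 : s * (inner ℝ u p.1 * inner ℝ w p.2 - inner ℝ u p.2 * inner ℝ w p.1) = 0 := by
        linear_combination inner ℝ w p.2 * h1 - inner ℝ w p.1 * h2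
      exact (mul_eq_zero.1 h4).resolve_left hs
  rw [h3]
  ring

theorem scale_mem {n : ℕ} (hn : n ≠ 0) (U : Submodule ℝ (V n × V n → ℝ)) (hU : U ≤ WW n)
    (hinv : ∀ g, ∀ f ∈ U, RR g f ∈ U) (f : V n × V n → ℝ) (hf : f ∈ U)
    (M : Matrix (Fin n) (Fin n) ℝ) (hM : 0 < M.det) :
    (fun p : V n × V n => f (Matrix.toEuclideanLin M p.1, Matrix.toEuclideanLin M p.2)) ∈ U := by
  set c : ℝ := M.det ^ (1 / (n : ℝ)) with hc
  have hc0 : 0 < c := Real.rpow_pos_of_pos hM _
  have hcn : c ^ n = M.det := by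
    rw [hc, ← Real.rpow_natCast, ← Real.rpow_mul hM.le, one_div,
      inv_mul_cancel₀ (by exact_mod_cast hn), Real.rpow_one]
  let g : SL n := ⟨c⁻¹ • M, by
    rw [Matrix.det_smul, Fintype.card_fin, inv_pow, hcn, inv_mul_cancel₀ hM.ne']⟩
  have hg : ∀ x : V n, Matrix.toEuclideanLin M x = c • act g x := by
    intro x
    unfold act
    change _ = c • Matrix.toEuclideanLin (c⁻¹ • M) x
    rw [map_smul, LinearMap.smul_apply, smul_smul, mul_inv_cancel₀ hc0.ne', one_smul]
  have e : (fun p : V n × V n => f (Matrix.toEuclideanLin M p.1, Matrix.toEuclideanLin M p.2)) =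
      (c ^ 4) • RR g⁻¹ f := by
    funext p
    rw [hg, hg]
    have h1 := WW_transform f (hU hf) (act g p.1) (act g p.2) c 0 0 c
    simp only [zero_smul, add_zero, zero_add] at h1
    rw [h1]
    simp only [Pi.smul_apply, RR_apply, inv_inv, smul_eq_mul]
    ring
  rw [e]
  exact U.smul_mem _ (hinv _ f hf)

theorem irreducible_aux {n : ℕ} (hn : 3 ≤ n) (U : Submodule ℝ (V n × V n → ℝ)) (hU : U ≤ WW n)
    (hinv : ∀ g, ∀ f ∈ U, RR g f ∈ U) (hne : U ≠ ⊥) : U = WW n := by
  have hn0 : n ≠ 0 := by omega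
  let i0 : Fin n := ⟨0, by omega⟩
  let i1 : Fin n := ⟨1, by omega⟩
  let i2 : Fin n := ⟨2, by omega⟩
  have h01 : i0 ≠ i1 := by simp [i0, i1]
  have h02 : i0 ≠ i2 := by simp [i0, i2]
  have h12 : i1 ≠ i2 := by simp [i1, i2]
  have : FiniteDimensional ℝ U := Submodule.finiteDimensional_of_le hU
  -- a nonzero function
  obtain ⟨f, hf, hf0⟩ := U.exists_mem_ne_zero_of_ne_bot hne
  obtain ⟨⟨a, b⟩, hab⟩ := Function.ne_iff.1 hf0
  have hab' : f (a, b) ≠ 0 := hab
  have hind : LinearIndependent ℝ ![a, b] := by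
    by_contra h
    exact hab' (WW_dep f (hU hf) a b h)
  obtain ⟨g, hg1, hg2⟩ := exists_SL i0 i1 i2 h01 h02 h12 a b hind
  set f1 := RR g⁻¹ f with hf1
  have hf1U : f1 ∈ U := hinv _ f hf
  have hval : f1 (ee i0, ee i1) ≠ 0 := by
    rw [hf1, RR_apply, inv_inv]
    simp only
    rw [hg1, hg2]
    exact hab'
  -- the limit
  let M : ℝ → Matrix (Fin n) (Fin n) ℝ := fun t =>
    Matrix.diagonal fun i => if i = i0 ∨ i = i1 then 1 else t
  have hMdet : ∀ t : ℝ, 0 < t → 0 < (M t).det := by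
    intro t ht
    rw [Matrix.det_diagonal]
    refine Finset.prod_pos fun i _ => ?_
    split_ifs
    · exact one_pos
    · exact ht
  have hMapply : ∀ (t : ℝ) (x : V n) (i : Fin n), Matrix.toEuclideanLin (M t) x i =
      (if i = i0 ∨ i = i1 then 1 else t) * x i := by
    intro t x i
    change ((M t).mulVec x) i = _
    rw [Matrix.mulVec_diagonal]
  have hMlim : ∀ x : V n, Tendsto (fun k : ℕ => Matrix.toEuclideanLin (M (1 / ((k : ℝ) + 1))) x)
      atTop (𝓝 (x i0 • ee i0 + x i1 • ee i1)) := by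
    intro x
    have hcont : Continuous fun t : ℝ => Matrix.toEuclideanLin (M t) x := by
      refine (PiLp.continuous_toLp 2 _).comp (continuous_pi fun i => ?_)
      change Continuous fun t : ℝ => Matrix.toEuclideanLin (M t) x i
      simp only [hMapply]
      split_ifs <;> fun_prop
    have h0 : Matrix.toEuclideanLin (M 0) x = x i0 • ee i0 + x i1 • ee i1 := by
      ext i
      rw [hMapply]
      simp only [PiLp.add_apply, PiLp.smul_apply, ee_apply, smul_eq_mul]
      by_cases h1 : i = i0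
      · subst h1
        simp [h01]
      · by_cases h2 : i = i1
        · subst h2
          simp [h01.symm]
        · simp [h1, h2]
    have h1 := (hcont.tendsto 0).comp (tendsto_one_div_add_atTop_nhds_zero_nat (𝕜 := ℝ))
    rw [h0] at h1
    exact h1
  have hsq : (f1 (ee i0, ee i1)) • sq (ee i0) (ee i1) ∈ U := by
    refine limit_mem U (l := atTop) (fun (k : ℕ) (p : V n × V n) =>
      f1 (Matrix.toEuclideanLin (M (1 / ((k : ℝ) + 1))) p.1,
        Matrix.toEuclideanLin (M (1 / ((k : ℝ) + 1))) p.2)) ?_ _ ?_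
    · intro k
      exact scale_mem hn0 U hU hinv f1 hf1U _ (hMdet _ (by positivity))
    · intro p
      have h1 := ((WW_continuous f1 (hU hf1U)).tendsto _).comp
        ((hMlim p.1).prodMk_nhds (hMlim p.2))
      have h2 := WW_transform f1 (hU hf1U) (ee i0) (ee i1) (p.1 i0) (p.1 i1) (p.2 i0) (p.2 i1)
      rw [h2] at h1
      have e : (f1 (ee i0, ee i1) • sq (ee i0) (ee i1)) p =
          (p.1 i0 * p.2 i1 - p.1 i1 * p.2 i0) ^ 2 * f1 (ee i0, ee i1) := by
        simp only [Pi.smul_apply, sq, inner_ee, smul_eq_mul]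
        ring
      rw [e]
      exact h1
  have hsq1 : sq (ee i0) (ee i1) ∈ U := by
    have h1 := U.smul_mem (f1 (ee i0, ee i1))⁻¹ hsq
    rw [smul_smul, inv_mul_cancel₀ hval, one_smul] at h1
    exact h1
  refine le_antisymm hU ?_
  unfold WW
  rw [Submodule.span_le]
  rintro _ ⟨⟨u, w⟩, rfl⟩
  change sq u w ∈ U
  by_cases h : LinearIndependent ℝ ![u, w]
  · obtain ⟨g', h1, h2⟩ := exists_SL i0 i1 i2 h01 h02 h12 u w h
    have h3 := hinv (g'.transpose)⁻¹ _ hsq1
    rw [RR_sq, inv_inv] at h3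
    have h4 : g'.transpose.transpose = g' := by
      ext i j
      simp [Matrix.SpecialLinearGroup.coe_transpose]
    rw [h4, h1, h2] at h3
    exact h3
  · rw [sq_dep u w h]
    exact U.zero_mem

theorem WW_ne_bot {n : ℕ} (hn : 2 ≤ n) : WW n ≠ ⊥ := by
  intro h
  have h1 := sq_mem (ee (⟨0, by omega⟩ : Fin n)) (ee (⟨1, by omega⟩ : Fin n))
  rw [h, Submodule.mem_bot] at h1
  have h2 := congrFun h1 (ee (⟨0, by omega⟩ : Fin n), ee (⟨1, by omega⟩ : Fin n))
  simp only [sq, inner_ee, ee_apply, Pi.zero_apply] at h2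
  simp [Fin.ext_iff] at h2

end Pool.Agent.Lib.MP_05553e_gt
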