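import Mathlib
import Pool.Agent.Lib.MP_05553e_gt.Rep

set_option autoImplicit false

open MeasureTheory Filter Topology Set

namespace Pool.Agent.Lib.MP_05553e_gt

/-! ### Rationality -/

/-- A polynomial function on `SL n`. -/
def PolyFn {n : ℕ} (φ : SL n → ℝ) : Prop :=
  ∃ P : MvPolynomial (Fin n × Fin n) ℝ, ∀ g : SL n,
    φ g = MvPolynomial.eval (fun ij => g.1 ij.1 ij.2) P

theorem PolyFn.add {n : ℕ} {φ ψ : SL n → ℝ} (h1 : PolyFn φ) (h2 : PolyFn ψ) :
    PolyFn (fun g => φ g + ψ g) := by
  obtain ⟨P, hP⟩ := h1
  obtain ⟨Q, hQ⟩ := h2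
  exact ⟨P + Q, fun g => (congrArg₂ (· + ·) (hP g) (hQ g)).trans (map_add _ P Q).symm⟩

theorem PolyFn.mul {n : ℕ} {φ ψ : SL n → ℝ} (h1 : PolyFn φ) (h2 : PolyFn ψ) :
    PolyFn (fun g => φ g * ψ g) := by
  obtain ⟨P, hP⟩ := h1
  obtain ⟨Q, hQ⟩ := h2
  exact ⟨P * Q, fun g => (congrArg₂ (· * ·) (hP g) (hQ g)).trans (map_mul _ P Q).symm⟩

theorem PolyFn.const {n : ℕ} (c : ℝ) : PolyFn (fun _ : SL n => c) :=
  ⟨MvPolynomial.C c, fun g => by rw [MvPolynomial.eval_C]⟩

theorem PolyFn.sum {n : ℕ} {ι : Type*} (s : Finset ι) (φ : ι → SL n → ℝ)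
    (h : ∀ i ∈ s, PolyFn (φ i)) : PolyFn (fun g => ∑ i ∈ s, φ i g) := by
  classical
  induction s using Finset.induction_on with
  | empty =>
    simp only [Finset.sum_empty]
    exact PolyFn.const 0
  | insert a s ha ih =>
    simp only [Finset.sum_insert ha]
    exact (h a (Finset.mem_insert_self a s)).add
      (ih fun i hi => h i (Finset.mem_insert_of_mem hi))

theorem PolyFn.inv_entry {n : ℕ} (i j : Fin n) : PolyFn (fun g : SL n => (g⁻¹).1 i j) := by
  let X : Matrix (Fin n) (Fin n) (MvPolynomial (Fin n × Fin n) ℝ) :=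
    Matrix.of fun i j => MvPolynomial.X (i, j)
  refine ⟨X.adjugate i j, fun g => ?_⟩
  have h1 : (g⁻¹).1 = g.1.adjugate := Matrix.SpecialLinearGroup.coe_inv g
  have h2 := RingHom.map_adjugate (MvPolynomial.eval (fun ij : Fin n × Fin n => g.1 ij.1 ij.2)) X
  have h3 : (MvPolynomial.eval (fun ij : Fin n × Fin n => g.1 ij.1 ij.2)).mapMatrix X = g.1 := by
    ext i j
    simp [X]
  rw [h3] at h2
  exact congrFun (congrFun (h1.trans h2.symm) i) j

theorem PolyFn.inner_act {n : ℕ} (u a : V n) :
    PolyFn (fun g : SL n => inner ℝ u (act g⁻¹ a)) := by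
  simp only [inner_eq_sum, act_apply]
  refine PolyFn.sum _ _ fun i _ => (PolyFn.const _).mul (PolyFn.sum _ _ fun j _ => ?_)
  exact (PolyFn.inv_entry i j).mul (PolyFn.const _)

theorem PolyFn.eval_WW {n : ℕ} (f : V n × V n → ℝ) (hf : f ∈ WW n) (a b : V n) :
    PolyFn (fun g : SL n => f (act g⁻¹ a, act g⁻¹ b)) := by
  refine WW_induction (p := fun f => PolyFn (fun g : SL n => f (act g⁻¹ a, act g⁻¹ b)))
    ?_ ?_ ?_ ?_ f hf
  · intro u w
    have h1 := ((PolyFn.inner_act u a).mul (PolyFn.inner_act w b)).add
      ((PolyFn.const (-1)).mul ((PolyFn.inner_act u b).mul (PolyFn.inner_act w a)))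
    have h2 := h1.mul h1
    have e : (fun g : SL n => sq u w (act g⁻¹ a, act g⁻¹ b)) = fun g : SL n =>
        (inner ℝ u (act g⁻¹ a) * inner ℝ w (act g⁻¹ b) +
          -1 * (inner ℝ u (act g⁻¹ b) * inner ℝ w (act g⁻¹ a))) *
        (inner ℝ u (act g⁻¹ a) * inner ℝ w (act g⁻¹ b) +
          -1 * (inner ℝ u (act g⁻¹ b) * inner ℝ w (act g⁻¹ a))) := by
      funext g
      simp only [sq]
      ring
    rw [e]
    exact h2
  · exact PolyFn.const 0
  · intro f f' h1 h2
    exact h1.add h2
  · intro c f h1
    exact (PolyFn.const c).mul h1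

theorem rho_rational (n : ℕ) : IsRational (rho (n := n)) := by
  intro φ w
  obtain ⟨c, hc⟩ := exists_coord (WW n) φ
  have h : PolyFn (fun g : SL n => ∑ x ∈ c.support, c x * (rho g w : V n × V n → ℝ) x) := by
    refine PolyFn.sum _ _ fun x _ => (PolyFn.const _).mul ?_
    exact PolyFn.eval_WW (w : V n × V n → ℝ) w.2 x.1 x.2
  obtain ⟨P, hP⟩ := h
  exact ⟨P, fun g => by rw [hc, ← hP g]⟩

/-! ### Highest weight -/

theorem prod_diag_eq_one {n : ℕ} (g : SL n) (h : ∀ i j, i ≠ j → g.1 i j = 0) :
    ∏ i, g.1 i i = 1 := by
  have h1 : g.1 = Matrix.diagonal fun i => g.1 i i := by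
    ext i j
    by_cases hij : i = j
    · subst hij
      simp
    · rw [Matrix.diagonal_apply_ne _ hij, h i j hij]
  rw [← Matrix.det_diagonal, ← h1]
  exact g.2

theorem diag_ne_zero {n : ℕ} (g : SL n) (h : ∀ i j, i ≠ j → g.1 i j = 0) (i : Fin n) :
    g.1 i i ≠ 0 := by
  have h1 := prod_diag_eq_one g h
  intro h2
  have h3 := Finset.prod_eq_zero (f := fun i => g.1 i i) (Finset.mem_univ i) h2
  rw [h3] at h1
  exact zero_ne_one h1

theorem act_diag {n : ℕ} (g : SL n) (h : ∀ i j, i ≠ j → g.1 i j = 0) (x : V n) (i : Fin n) :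
    act g x i = g.1 i i * x i := by
  rw [act_apply]
  refine Finset.sum_eq_single i ?_ ?_
  · intro j _ hj
    rw [h i j hj.symm, zero_mul]
  · intro h1
    exact absurd (Finset.mem_univ i) h1

theorem act_inv_diag {n : ℕ} (g : SL n) (h : ∀ i j, i ≠ j → g.1 i j = 0) (x : V n) (i : Fin n) :
    act g⁻¹ x i = (g.1 i i)⁻¹ * x i := by
  have h1 := act_diag g h (act g⁻¹ x) i
  rw [act_act_inv] at h1
  rw [h1, ← mul_assoc, inv_mul_cancel₀ (diag_ne_zero g h i), one_mul]

theorem rho_highest {n : ℕ} (hn : 2 ≤ n) :
    HasHighestWeight (rho (n := n)) (fun i => if (i : ℕ) + 2 < n then 2 else 0) := by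
  classical
  let j1 : Fin n := ⟨n - 2, by omega⟩
  let j2 : Fin n := ⟨n - 1, by omega⟩
  have h12 : j1 ≠ j2 := by
    intro h
    have := congrArg Fin.val h
    simp only [j1, j2] at this
    omega
  refine ⟨⟨sq (ee j1) (ee j2), sq_mem _ _⟩, ?_, ?_, ?_⟩
  · intro h
    have h1 := congrArg (fun f : WW n => (f : V n × V n → ℝ) (ee j1, ee j2)) h
    simp only [sq, inner_ee, ee_apply, ZeroMemClass.coe_zero, Pi.zero_apply] at h1
    simp [h12, h12.symm] at h1
  · intro g hg hd
    ext ⟨a, b⟩
    rw [rho_apply]
    have key : ∀ x : V n, x j2 = (act g⁻¹ x) j2 ∧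
        x j1 = (act g⁻¹ x) j1 + g.1 j1 j2 * (act g⁻¹ x) j2 := by
      intro x
      have e : act g (act g⁻¹ x) = x := act_act_inv g x
      constructor
      · conv_lhs => rw [← e, act_apply]
        rw [Finset.sum_eq_single j2, hd, one_mul]
        · intro j _ hj
          have hlt : j < j2 := by
            have h1 : (j : ℕ) ≠ n - 1 := fun h => hj (Fin.ext h)
            have h2 := j.2
            exact Fin.lt_def.2 (by simp only [j2]; omega)
          rw [hg j2 j hlt, zero_mul]
        · intro h1
          exact absurd (Finset.mem_univ _) h1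
      · conv_lhs => rw [← e, act_apply]
        rw [Finset.sum_eq_add j1 j2 h12, hd, one_mul]
        · intro j _ hj
          have hlt : j < j1 := by
            have h1 : (j : ℕ) ≠ n - 1 := fun h => hj.2 (Fin.ext h)
            have h3 : (j : ℕ) ≠ n - 2 := fun h => hj.1 (Fin.ext h)
            have h2 := j.2
            exact Fin.lt_def.2 (by simp only [j1]; omega)
          rw [hg j1 j hlt, zero_mul]
        · intro h1
          exact absurd (Finset.mem_univ _) h1
        · intro h1
          exact absurd (Finset.mem_univ _) h1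
    obtain ⟨a2, a1⟩ := key a
    obtain ⟨b2, b1⟩ := key b
    simp only [sq, inner_ee]
    rw [a1, b1, a2, b2]
    ring
  · intro g hg
    ext ⟨a, b⟩
    rw [rho_apply]
    simp only [sq, inner_ee, act_inv_diag g hg, Submodule.coe_smul, Pi.smul_apply, smul_eq_mul]
    have hne := diag_ne_zero g hg
    have h1 : (∏ i, g.1 i i ^ (if (i : ℕ) + 2 < n then (2 : ℤ) else 0)) *
        (∏ i, g.1 i i ^ (if i = j1 ∨ i = j2 then (2 : ℤ) else 0)) = 1 := by
      rw [← Finset.prod_mul_distrib]
      have h2 : ∀ i : Fin n, g.1 i i ^ (if (i : ℕ) + 2 < n then (2 : ℤ) else 0) *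
          g.1 i i ^ (if i = j1 ∨ i = j2 then (2 : ℤ) else 0) = (g.1 i i) ^ 2 := by
        intro i
        by_cases h3 : (i : ℕ) + 2 < n
        · have h4 : ¬ (i = j1 ∨ i = j2) := by
            rintro (h | h) <;>
            · have := congrArg Fin.val h
              simp only [j1, j2] at this
              omega
          rw [if_pos h3, if_neg h4, zpow_zero, mul_one]
          norm_cast
        · have h4 : i = j1 ∨ i = j2 := by
            have h5 := i.2
            by_cases h6 : (i : ℕ) = n - 1
            · right
              exact Fin.ext h6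
            · left
              exact Fin.ext (show (i : ℕ) = n - 2 by omega)
          rw [if_neg h3, if_pos h4, zpow_zero, one_mul]
          norm_cast
      rw [Finset.prod_congr rfl fun i _ => h2 i, Finset.prod_pow, prod_diag_eq_one g hg, one_pow]
    have h2 : (∏ i, g.1 i i ^ (if i = j1 ∨ i = j2 then (2 : ℤ) else 0)) =
        (g.1 j1 j1) ^ 2 * (g.1 j2 j2) ^ 2 := by
      rw [Finset.prod_eq_mul j1 j2 h12]
      · simp only [true_or, or_true, if_true]
        norm_cast
      · intro i _ hi
        rw [if_neg (by tauto), zpow_zero]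
      · intro h1
        exact absurd (Finset.mem_univ _) h1
      · intro h1
        exact absurd (Finset.mem_univ _) h1
    rw [h2] at h1
    have h3 : (∏ i, g.1 i i ^ (if (i : ℕ) + 2 < n then (2 : ℤ) else 0)) =
        ((g.1 j1 j1) ^ 2 * (g.1 j2 j2) ^ 2)⁻¹ := eq_inv_of_mul_eq_one_left h1
    rw [h3]
    have n1 := hne j1
    have n2 := hne j2
    field_simp

theorem rho_not_admissible {n : ℕ} (hn : 4 ≤ n) : ¬ IsAdmissible (rho (n := n)) := by
  classical
  rintro ⟨p, q, w, hw, hU, hT⟩
  let j1 : Fin n := ⟨n - 2, by omega⟩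
  let j2 : Fin n := ⟨n - 1, by omega⟩
  let i1 : Fin n := ⟨1, by omega⟩
  have h12 : j1 ≠ j2 := by
    intro h
    have := congrArg Fin.val h
    simp only [j1, j2] at this
    omega
  have hi1 : i1 ≠ j1 := by
    intro h
    have := congrArg Fin.val h
    simp only [j1, i1] at this
    omega
  have hi2 : i1 ≠ j2 := by
    intro h
    have := congrArg Fin.val h
    simp only [j2, i1] at this
    omega
  set f : V n × V n → ℝ := (w : V n × V n → ℝ) with hf
  have hfW : f ∈ WW n := w.2
  -- vanishing off the open set
  have hval : f (ee j1, ee j2) ≠ 0 := by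
    intro hc
    have hopen : ∀ a b : V n, a j1 * b j2 - b j1 * a j2 ≠ 0 → f (a, b) = 0 := by
      intro a b hΔ
      set Δ := a j1 * b j2 - b j1 * a j2 with hΔdef
      let x : Fin n → ℝ := fun i => -(a i * b j2 - b i * a j2) / Δ
      let y : Fin n → ℝ := fun i => -(a j1 * b i - b j1 * a i) / Δ
      let M : Matrix (Fin n) (Fin n) ℝ := fun i j =>
        if i = j then 1 else if i = j2 then 0 else if j = j1 then (if i < j1 then x i else 0)
          else if j = j2 then (if i = j1 then 0 else y i) else 0
      have hupper : ∀ i j, j < i → M i j = 0 := by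
        intro i j hji
        have hne : i ≠ j := hji.ne'
        simp only [M]
        rw [if_neg hne]
        by_cases h1 : i = j2
        · rw [if_pos h1]
        · rw [if_neg h1]
          by_cases h2 : j = j1
          · rw [if_pos h2, if_neg]
            rw [← h2]
            exact not_lt.2 hji.le
          · rw [if_neg h2]
            by_cases h3 : j = j2
            · exfalso
              have h4 := Fin.lt_def.1 hji
              rw [h3] at h4
              simp only [j2] at h4
              have := i.2
              omega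
            · rw [if_neg h3]
      have hdiag : ∀ i, M i i = 1 := by
        intro i
        simp [M]
      have hdet : M.det = 1 := by
        rw [Matrix.det_of_isUpperTriangular (fun i j h => hupper i j h)]
        exact Finset.prod_eq_one fun i _ => hdiag i
      let g : SL n := ⟨M, hdet⟩
      have hg := hU g hupper hdiag
      have hinv : ∀ a b : V n, f (act g a, act g b) = f (a, b) := by
        intro a b
        have h1 := congrArg (fun f : WW n => (f : V n × V n → ℝ) (act g a, act g b)) hg
        simp only [rho_apply, act_inv_act] at h1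
        exact h1.symm
      have hrow : ∀ z : V n, ∀ i, i ≠ j1 → i ≠ j2 → act g z i = z i + x i * z j1 + y i * z j2 := by
        intro z i hi1 hi2
        have hlt : i < j1 := by
          have h1 : (i : ℕ) ≠ n - 1 := fun h => hi2 (Fin.ext h)
          have h3 : (i : ℕ) ≠ n - 2 := fun h => hi1 (Fin.ext h)
          have h2 := i.2
          exact Fin.lt_def.2 (by simp only [j1]; omega)
        rw [act_apply]
        have e : ∀ j, M i j * z j = (if j = i then z i else 0) + (if j = j1 then x i * z j1 else 0) +
            (if j = j2 then y i * z j2 else 0) := by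
          intro j
          simp only [M]
          by_cases h1 : i = j
          · subst h1
            rw [if_pos rfl, if_pos rfl, if_neg hi1, if_neg hi2]
            ring
          · rw [if_neg h1, if_neg (Ne.symm h1), if_neg hi2]
            by_cases h2 : j = j1
            · subst h2
              rw [if_pos rfl, if_pos hlt, if_pos rfl, if_neg h12]
              ring
            · rw [if_neg h2, if_neg h2]
              by_cases h3 : j = j2
              · subst h3
                rw [if_pos rfl, if_neg hi1, if_pos rfl]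
                ring
              · rw [if_neg h3, if_neg h3]
                ring
        change ∑ j, M i j * z j = _
        rw [Finset.sum_congr rfl fun j _ => e j, Finset.sum_add_distrib, Finset.sum_add_distrib]
        simp
      have hrow1 : ∀ z : V n, act g z j1 = z j1 := by
        intro z
        rw [act_apply]
        change ∑ j, M j1 j * z j = _
        rw [Finset.sum_eq_single j1, hdiag, one_mul]
        · intro j _ hj
          simp only [M]
          rw [if_neg (Ne.symm hj), if_neg h12, if_neg hj]
          simp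
        · intro h1
          exact absurd (Finset.mem_univ _) h1
      have hrow2 : ∀ z : V n, act g z j2 = z j2 := by
        intro z
        rw [act_apply]
        change ∑ j, M j2 j * z j = _
        rw [Finset.sum_eq_single j2, hdiag, one_mul]
        · intro j _ hj
          simp only [M]
          rw [if_neg (Ne.symm hj)]
          simp
        · intro h1
          exact absurd (Finset.mem_univ _) h1
      have ga : act g a = a j1 • ee j1 + a j2 • ee j2 := by
        ext i
        simp only [PiLp.add_apply, PiLp.smul_apply, ee_apply, smul_eq_mul]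
        by_cases h1 : i = j1
        · subst h1
          rw [hrow1]
          simp [h12]
        · by_cases h2 : i = j2
          · subst h2
            rw [hrow2]
            simp [h12.symm]
          · rw [hrow a i h1 h2]
            simp only [h1, h2, if_false, mul_zero, add_zero, x, y]
            field_simp
            rw [hΔdef]
            ring
      have gb : act g b = b j1 • ee j1 + b j2 • ee j2 := by
        ext i
        simp only [PiLp.add_apply, PiLp.smul_apply, ee_apply, smul_eq_mul]
        by_cases h1 : i = j1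
        · subst h1
          rw [hrow1]
          simp [h12]
        · by_cases h2 : i = j2
          · subst h2
            rw [hrow2]
            simp [h12.symm]
          · rw [hrow b i h1 h2]
            simp only [h1, h2, if_false, mul_zero, add_zero, x, y]
            field_simp
            rw [hΔdef]
            ring
      rw [← hinv a b, ga, gb, WW_transform f hfW, hc, mul_zero]
    apply hw
    ext ⟨a, b⟩
    change f (a, b) = 0
    have hlim : Tendsto (fun s : ℝ => f (a + s • ee j1, b + s • ee j2)) (𝓝[>] 0) (𝓝 (f (a, b))) := by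
      have h1 : Continuous fun s : ℝ => f (a + s • ee j1, b + s • ee j2) := by
        refine (WW_continuous f hfW).comp ?_
        fun_prop
      have h2 := h1.tendsto 0
      simp only [zero_smul, add_zero] at h2
      exact h2.mono_left nhdsWithin_le_nhds
    have hev : ∀ᶠ s : ℝ in 𝓝[>] 0, f (a + s • ee j1, b + s • ee j2) = 0 := by
      by_cases hΔ : a j1 * b j2 - b j1 * a j2 = 0
      · have hev2 : ∀ᶠ s : ℝ in 𝓝[>] 0, s + (a j1 + b j2) ≠ 0 := by
          by_cases hT0 : a j1 + b j2 = 0
          · filter_upwards [self_mem_nhdsWithin] with s hs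
            rw [hT0, add_zero]
            exact ne_of_gt hs
          · have h1 : Continuous fun s : ℝ => s + (a j1 + b j2) := by fun_prop
            have h2 := h1.tendsto 0
            rw [zero_add] at h2
            exact (h2.mono_left nhdsWithin_le_nhds).eventually_ne hT0
        filter_upwards [hev2, self_mem_nhdsWithin] with s hs1 hs2
        apply hopen
        simp only [PiLp.add_apply, PiLp.smul_apply, ee_apply, smul_eq_mul, if_true, mul_one,
          h12, h12.symm, if_false, mul_zero, add_zero]
        have hs3 : s ≠ 0 := ne_of_gt hs2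
        have e : (a j1 + s) * (b j2 + s) - b j1 * a j2 = s * (s + (a j1 + b j2)) := by
          linear_combination hΔ
        rw [e]
        exact mul_ne_zero hs3 hs1
      · have h1 : Continuous fun s : ℝ => (a j1 + s) * (b j2 + s) - b j1 * a j2 := by fun_prop
        have h2 := h1.tendsto 0
        simp only [add_zero] at h2
        filter_upwards [(h2.mono_left nhdsWithin_le_nhds).eventually_ne hΔ] with s hs
        apply hopen
        simp only [PiLp.add_apply, PiLp.smul_apply, ee_apply, smul_eq_mul, if_true, mul_one,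
          h12, h12.symm, if_false, mul_zero, add_zero]
        exact hs
    have h3 : Tendsto (fun s : ℝ => f (a + s • ee j1, b + s • ee j2)) (𝓝[>] 0) (𝓝 0) :=
      tendsto_const_nhds.congr' (hev.mono fun s hs => hs.symm)
    exact tendsto_nhds_unique hlim h3
  -- the torus element
  let d : Fin n → ℝ := fun i => if i = i1 then 2 else if i = j1 then 1 / 2 else 1
  have hd : ∏ i, d i = 1 := by
    rw [Finset.prod_eq_mul i1 j1 hi1]
    · simp [d, hi1.symm]
    · intro i _ hi
      simp [d, hi.1, hi.2]
    · intro h1
      exact absurd (Finset.mem_univ _) h1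
    · intro h1
      exact absurd (Finset.mem_univ _) h1
  let g : SL n := ⟨Matrix.diagonal d, by rw [Matrix.det_diagonal, hd]⟩
  have hgo : ∀ i j, i ≠ j → g.1 i j = 0 := fun i j hij => Matrix.diagonal_apply_ne _ hij
  have hgd : ∀ i, g.1 i i = d i := fun i => Matrix.diagonal_apply_eq _ _
  have h1 := hT g hgo
  have h2 := congrArg (fun f : WW n => (f : V n × V n → ℝ) (ee j1, ee j2)) h1
  simp only [rho_apply, Submodule.coe_smul, Pi.smul_apply, smul_eq_mul] at h2
  have e1 : act g⁻¹ (ee j1) = (2 : ℝ) • ee j1 := by
    ext i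
    rw [act_inv_diag g hgo, hgd]
    simp only [PiLp.smul_apply, ee_apply, smul_eq_mul]
    by_cases h : i = j1
    · subst h
      simp [d, hi1.symm]
    · simp [h]
  have e2 : act g⁻¹ (ee j2) = (1 : ℝ) • ee j2 := by
    ext i
    rw [act_inv_diag g hgo, hgd]
    simp only [PiLp.smul_apply, ee_apply, smul_eq_mul]
    by_cases h : i = j2
    · subst h
      simp [d, hi2.symm, h12.symm]
    · simp [h]
  rw [e1, e2] at h2
  have h3 := WW_transform f hfW (ee j1) (ee j2) 2 0 0 1
  simp only [zero_smul, add_zero, zero_add] at h3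
  rw [← hf, h3] at h2
  have h4 : (∏ i, g.1 i i ^ (if (i : ℕ) = 0 then (p : ℤ) + q else
      if (i : ℕ) + 1 = n then 0 else (q : ℤ))) = 1 := by
    rw [Finset.prod_eq_mul i1 j1 hi1]
    · rw [hgd, hgd]
      have k1 : ¬ ((i1 : ℕ) = 0) := by simp [i1]
      have k2 : ¬ ((i1 : ℕ) + 1 = n) := by simp only [i1]; omega
      have k3 : ¬ ((j1 : ℕ) = 0) := by simp only [j1]; omega
      have k4 : ¬ ((j1 : ℕ) + 1 = n) := by simp only [j1]; omega
      rw [if_neg k1, if_neg k2, if_neg k3, if_neg k4, ← mul_zpow]
      simp [d, hi1.symm]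
    · intro i _ hi
      rw [hgd]
      simp [d, hi.1, hi.2]
    · intro h1
      exact absurd (Finset.mem_univ _) h1
    · intro h1
      exact absurd (Finset.mem_univ _) h1
  rw [h4] at h2
  apply hval
  linarith

end Pool.Agent.Lib.MP_05553e_gt
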