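import Mathlib
import Pool.Agent.Lib.MP_05553e_gt.Rep2

set_option autoImplicit false

open MeasureTheory Filter Topology Set

namespace Pool.Agent.Lib.MP_05553e_gt

section transport

variable {n : ℕ} {W W' : Type*} [AddCommGroup W] [Module ℝ W] [AddCommGroup W'] [Module ℝ W']

/-- Transport of a representation along a linear equivalence. -/
noncomputable def conjRep (φ : W ≃ₗ[ℝ] W') (ρ : Representation ℝ (SL n) W) :
    Representation ℝ (SL n) W' where
  toFun g := φ.toLinearMap ∘ₗ ρ g ∘ₗ φ.symm.toLinearMap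
  map_one' := by
    ext
    simp
  map_mul' g h := by
    ext
    simp

theorem conjRep_apply (φ : W ≃ₗ[ℝ] W') (ρ : Representation ℝ (SL n) W) (g : SL n) (w : W') :
    conjRep φ ρ g w = φ (ρ g (φ.symm w)) := rfl

theorem conjRep_rational (φ : W ≃ₗ[ℝ] W') (ρ : Representation ℝ (SL n) W) (h : IsRational ρ) :
    IsRational (conjRep φ ρ) := by
  intro ψ w
  obtain ⟨P, hP⟩ := h (ψ ∘ₗ φ.toLinearMap) (φ.symm w)
  exact ⟨P, fun g => hP g⟩

theorem conjRep_highest (φ : W ≃ₗ[ℝ] W') (ρ : Representation ℝ (SL n) W) (p : Fin n → ℤ) :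
    HasHighestWeight (conjRep φ ρ) p ↔ HasHighestWeight ρ p := by
  constructor
  · rintro ⟨w, hw, hU, hT⟩
    refine ⟨φ.symm w, by simpa using hw, ?_, ?_⟩
    · intro g h1 h2
      have h3 := hU g h1 h2
      rw [conjRep_apply] at h3
      have h4 := congrArg φ.symm h3
      rwa [φ.symm_apply_apply] at h4
    · intro g h1
      have h3 := hT g h1
      rw [conjRep_apply] at h3
      rw [← map_smul, ← h3, φ.symm_apply_apply]
  · rintro ⟨w, hw, hU, hT⟩
    refine ⟨φ w, by simpa using hw, ?_, ?_⟩
    · intro g h1 h2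
      rw [conjRep_apply, φ.symm_apply_apply, hU g h1 h2]
    · intro g h1
      rw [conjRep_apply, φ.symm_apply_apply, hT g h1, map_smul]

theorem irreducible_of (ρ : Representation ℝ (SL n) W) [Nontrivial W]
    (h : ∀ U : Submodule ℝ W, (∀ g, ∀ w ∈ U, ρ g w ∈ U) → U = ⊥ ∨ U = ⊤) : ρ.IsIrreducible := by
  refine { exists_pair_ne := ⟨⊥, ⊤, ?_⟩, eq_bot_or_eq_top := ?_ }
  · intro h1
    have h2 := congrArg Subrepresentation.toSubmodule h1
    exact bot_ne_top (α := Submodule ℝ W) h2
  · intro S
    rcases h S.toSubmodule (fun g w hw => S.apply_mem_toSubmodule g hw) with h1 | h1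
    · left
      exact Subrepresentation.toSubmodule_injective h1
    · right
      exact Subrepresentation.toSubmodule_injective h1

end transport

theorem rho_invariant {n : ℕ} (hn : 3 ≤ n) (U : Submodule ℝ (WW n))
    (h : ∀ g, ∀ w ∈ U, rho g w ∈ U) : U = ⊥ ∨ U = ⊤ := by
  by_cases hU : U = ⊥
  · exact Or.inl hU
  · right
    have h1 : U.map (WW n).subtype = WW n := by
      refine irreducible_aux hn _ (Submodule.map_subtype_le _ _) ?_ ?_
      · rintro g _ ⟨f, hf, rfl⟩
        exact ⟨rho g f, h g f hf, rfl⟩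
      · intro h2
        apply hU
        exact Submodule.map_injective_of_injective (Submodule.subtype_injective _)
          (by rw [h2, Submodule.map_bot])
    rw [eq_top_iff]
    intro f _
    have h2 : (f : V n × V n → ℝ) ∈ U.map (WW n).subtype := by
      rw [h1]
      exact f.2
    obtain ⟨f', hf', he⟩ := h2
    have h3 : f' = f := Subtype.ext he
    rw [← h3]
    exact hf'

/-- The coordinates on `WW n`. -/
noncomputable def coordW (n : ℕ) :
    WW n ≃ₗ[ℝ] EuclideanSpace ℝ (Fin (Module.finrank ℝ (WW n))) :=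
  (Module.finBasis ℝ (WW n)).equivFun.trans (WithLp.linearEquiv 2 ℝ _).symm

/-- The representation on `ℝ ^ d`. -/
noncomputable def rhoE (n : ℕ) :
    Representation ℝ (SL n) (EuclideanSpace ℝ (Fin (Module.finrank ℝ (WW n)))) :=
  conjRep (coordW n) rho

theorem rhoE_rational (n : ℕ) : IsRational (rhoE n) := conjRep_rational _ _ (rho_rational n)

theorem rhoE_highest {n : ℕ} (hn : 2 ≤ n) :
    HasHighestWeight (rhoE n) (fun i => if (i : ℕ) + 2 < n then 2 else 0) :=
  (conjRep_highest _ _ _).2 (rho_highest hn)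

theorem rhoE_not_admissible {n : ℕ} (hn : 4 ≤ n) : ¬ IsAdmissible (rhoE n) := by
  rintro ⟨p, q, h⟩
  exact rho_not_admissible hn ⟨p, q, (conjRep_highest _ _ _).1 h⟩

theorem rhoE_irreducible {n : ℕ} (hn : 3 ≤ n) : (rhoE n).IsIrreducible := by
  have : Nontrivial (WW n) := by
    rw [Submodule.nontrivial_iff_ne_bot]
    exact WW_ne_bot (by omega)
  have : Nontrivial (EuclideanSpace ℝ (Fin (Module.finrank ℝ (WW n)))) :=
    (coordW n).toEquiv.symm.nontrivial
  refine irreducible_of _ fun U hU => ?_
  rcases rho_invariant hn (U.comap (coordW n).toLinearMap) (by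
    intro g w hw
    have h1 := hU g _ hw
    rw [rhoE, conjRep_apply] at h1
    simpa using h1) with h | h
  · left
    rw [eq_bot_iff]
    intro x hx
    have h1 : (coordW n).symm x ∈ U.comap (coordW n).toLinearMap := by
      simpa using hx
    rw [h, Submodule.mem_bot] at h1
    rw [Submodule.mem_bot]
    simpa using h1
  · right
    rw [eq_top_iff]
    intro x _
    have h1 : (coordW n).symm x ∈ U.comap (coordW n).toLinearMap := by
      rw [h]
      trivial
    simpa using h1

end Pool.Agent.Lib.MP_05553e_gt
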