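import Mathlib
import Pool.Agent.Lib.MP_05553e_gt.Geo
import Pool.Agent.Lib.MP_05553e_gt.Approx
import Pool.Agent.Lib.MP_05553e_gt.Rep3

set_option autoImplicit false

open MeasureTheory Filter Topology Set Metric

namespace Pool.Agent.Lib.MP_05553e_gt

/-! ### Membership in `WW n` -/

theorem MM_smooth_mem {n : ℕ} [Nontrivial (V n)] {g : V n → ℝ} {c C : ℝ} (h : Gf g c C)
    {F1 : V n → V n →L[ℝ] ℝ} {F2 : V n → V n →L[ℝ] V n →L[ℝ] ℝ} (hs : Smooth2 g F1 F2) :
    (fun p : V n × V n => MM g p.1 p.2) ∈ WW n := by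
  classical
  have hm : MeasurableSet ({0}ᶜ : Set (V n)) := (measurableSet_singleton 0).compl
  let hh : V n → V n × V n → ℝ := fun x p => if x = 0 then 0 else
    (F2 x p.1 p.1 * F2 x p.2 p.2 - (F2 x p.1 p.2) ^ 2) * Real.exp (-(F g x))
  have h1 : ∀ x, hh x ∈ WW n := by
    intro x
    by_cases hx : x = 0
    · have : hh x = 0 := by
        funext p
        simp [hh, hx]
      rw [this]
      exact Submodule.zero_mem _
    · have hsym : ∀ a b, F2 x a b = F2 x b a :=
        fun a b => second_derivative_symmetric hs.d1 (hs.d2 x hx) a b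
      have : hh x = Real.exp (-(F g x)) •
          (fun p : V n × V n => F2 x p.1 p.1 * F2 x p.2 p.2 - (F2 x p.1 p.2) ^ 2) := by
        funext p
        simp only [hh, if_neg hx, Pi.smul_apply, smul_eq_mul]
        ring
      rw [this]
      exact Submodule.smul_mem _ _ (bilin_mem (F2 x) hsym)
  have hcongr : ∀ p : V n × V n, ∀ x ∈ ({0}ᶜ : Set (V n)),
      (F2 x p.1 p.1 * F2 x p.2 p.2 - (F2 x p.1 p.2) ^ 2) * Real.exp (-(F g x)) = hh x p := by
    intro p x hx
    have hx' : x ≠ 0 := hx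
    simp only [hh, if_neg hx']
  have h2 : ∀ p, Integrable (fun x => hh x p) (volume.restrict {0}ᶜ) := by
    intro p
    exact (MM_smooth h hs p.1 p.2).1.congr_fun (hcongr p) hm
  have h3 := integral_mem (WW n) (volume.restrict {0}ᶜ) hh h1 h2
  have h4 : (fun p : V n × V n => MM g p.1 p.2) = fun p => ∫ x, hh x p ∂(volume.restrict {0}ᶜ) := by
    funext p
    rw [(MM_smooth h hs p.1 p.2).2]
    exact setIntegral_congr_fun hm (hcongr p)
  rw [h4]
  exact h3

theorem MM_mem {n : ℕ} [Nontrivial (V n)] {g : V n → ℝ} {c C : ℝ} (h : Gf g c C) :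
    (fun p : V n × V n => MM g p.1 p.2) ∈ WW n := by
  have hε : ∀ k : ℕ, 0 < 1 / ((k : ℝ) + 1) := fun k => by positivity
  choose G c' C' F1 F2 hG hcl hs using fun k : ℕ => exists_smooth h (1 / ((k : ℝ) + 1)) (hε k)
  refine limit_mem (WW n) (l := atTop) (fun k p => MM (G k) p.1 p.2)
    (fun k => MM_smooth_mem (hG k) (hs k)) _ fun p => ?_
  exact tendsto_MM h G (fun k => ⟨c' k, C' k, hG k⟩) (fun k => 1 / ((k : ℝ) + 1))
    (Eventually.of_forall fun k => (hε k).le) tendsto_one_div_add_atTop_nhds_zero_nat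
    (Eventually.of_forall hcl) p.1 p.2

/-! ### Equivariance -/

theorem J_equiv {n : ℕ} (L : V n ≃ₗ[ℝ] V n) {g g' : V n → ℝ} (hg : ∀ x, g' (L x) = g x)
    (a b y : V n) (p : ℝ × ℝ) : J g' (L a) (L b) (L y) p = J g a b y p := by
  unfold J F
  have e : shift (L a) (L b) (L y) p = L (shift a b y p) := by
    unfold shift
    simp
  rw [e, hg]

theorem val_equiv {n : ℕ} (L : V n ≃ₗ[ℝ] V n) {g g' : V n → ℝ} {c' C' : ℝ}
    (h' : Gf g' c' C') {c C : ℝ} (h : Gf g c C) (hg : ∀ x, g' (L x) = g x) (a b y : V n) :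
    val g' (L a) (L b) (L y) = val g a b y := by
  rw [val_eq_of_min h' (L a) (L b) (L y) (argm g a b y) (fun q => by
    rw [J_equiv L hg, J_equiv L hg]
    exact argm_spec h a b y q)]
  unfold val F
  have e : shift (L a) (L b) (L y) (argm g a b y) = L (shift a b y (argm g a b y)) := by
    unfold shift
    simp
  rw [e, hg]

theorem measurePreserving_of_det {n : ℕ} (L : V n ≃ₗ[ℝ] V n)
    (hL : LinearMap.det (L : V n →ₗ[ℝ] V n) = 1) : MeasurePreserving L volume volume := by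
  refine ⟨L.toContinuousLinearEquiv.continuous.measurable, ?_⟩
  have h1 := Measure.map_linearMap_addHaar_eq_smul_addHaar (volume : Measure (V n))
    (f := (L : V n →ₗ[ℝ] V n)) (by rw [hL]; exact one_ne_zero)
  rw [hL] at h1
  simpa using h1

theorem II_equiv {n : ℕ} (L : V n ≃ₗ[ℝ] V n) (hL : LinearMap.det (L : V n →ₗ[ℝ] V n) = 1)
    {g g' : V n → ℝ} {c' C' : ℝ}
    (h' : Gf g' c' C') {c C : ℝ} (h : Gf g c C) (hg : ∀ x, g' (L x) = g x) (a b : V n) :
    II g' (L a) (L b) = II g a b := by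
  unfold II
  rw [← (measurePreserving_of_det L hL).integral_comp
    L.toContinuousLinearEquiv.toHomeomorph.measurableEmbedding]
  simp only [val_equiv L h' h hg]

theorem MM_equiv {n : ℕ} (L : V n ≃ₗ[ℝ] V n) (hL : LinearMap.det (L : V n →ₗ[ℝ] V n) = 1)
    {g g' : V n → ℝ} {c' C' : ℝ}
    (h' : Gf g' c' C') {c C : ℝ} (h : Gf g c C) (hg : ∀ x, g' (L x) = g x) (a b : V n) :
    MM g' (L a) (L b) = MM g a b := by
  unfold MM
  have e1 := II_equiv L hL h' h hg a b
  have e2 := II_equiv L hL h' h hg a 0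
  have e3 := II_equiv L hL h' h hg 0 b
  have e4 := II_equiv L hL h' h hg 0 0
  rw [map_zero] at e2 e3 e4
  rw [e1, e2, e3, e4]

/-- `act g` as an equivalence. -/
noncomputable def actE {n : ℕ} (g : SL n) : V n ≃ₗ[ℝ] V n :=
  LinearEquiv.ofLinearMap (act g) (act g⁻¹) (LinearMap.ext fun x => act_act_inv g x)
    (LinearMap.ext fun x => act_inv_act g x)

theorem actE_apply {n : ℕ} (g : SL n) (x : V n) : actE g x = act g x := rfl

theorem det_actE {n : ℕ} (g : SL n) : LinearMap.det (actE g : V n →ₗ[ℝ] V n) = 1 := by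
  have h1 : (actE g : V n →ₗ[ℝ] V n) = act g := LinearMap.ext fun x => rfl
  rw [h1, ← LinearMap.det_toMatrix (EuclideanSpace.basisFun (Fin n) ℝ).toBasis (act g)]
  have h2 : LinearMap.toMatrix (EuclideanSpace.basisFun (Fin n) ℝ).toBasis
      (EuclideanSpace.basisFun (Fin n) ℝ).toBasis (act g) = g.1 := by
    unfold act
    rw [Matrix.toEuclideanLin_eq_toLin_orthonormal, LinearMap.toMatrix_toLin]
  rw [h2]
  exact g.2

/-! ### Convex bodies -/

/-- The gauge of a convex body. -/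
noncomputable def gau {n : ℕ} (K : K0 n) : V n → ℝ := gauge (K.1 : Set (V n))

theorem K0_nhds {n : ℕ} (K : K0 n) : (K.1 : Set (V n)) ∈ 𝓝 (0 : V n) :=
  mem_interior_iff_mem_nhds.1 K.2

theorem K0_ball {n : ℕ} (K : K0 n) : ∃ r > 0, ball 0 r ⊆ (K.1 : Set (V n)) :=
  Metric.mem_nhds_iff.1 (K0_nhds K)

theorem K0_closedBall {n : ℕ} (K : K0 n) : ∃ R > 0, (K.1 : Set (V n)) ⊆ closedBall 0 R := by
  obtain ⟨R, hR0, hR⟩ := K.1.isBounded.exists_pos_norm_le
  exact ⟨R, hR0, fun x hx => by simpa using hR x hx⟩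

theorem gau_gf {n : ℕ} (K : K0 n) : ∃ c C, Gf (gau K) c C := by
  obtain ⟨r, hr, h1⟩ := K0_ball K
  obtain ⟨R, hR, h2⟩ := K0_closedBall K
  exact ⟨_, _, gauge_gf hr hR K.1.convex h1 h2⟩

theorem exists_near {n : ℕ} (K L : ConvexBody (V n)) (x : V n) (hx : x ∈ (K : Set (V n))) :
    ∃ y ∈ (L : Set (V n)), dist x y ≤ dist K L := by
  obtain ⟨y, hy, h⟩ := L.isCompact.exists_infDist_eq_dist L.nonempty x
  refine ⟨y, hy, ?_⟩
  rw [← h, ← ConvexBody.hausdorffDist_coe]
  exact infDist_le_hausdorffDist_of_mem hx ConvexBody.hausdorffEDist_ne_top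

theorem continuous_MM {n : ℕ} (a b : V n) : Continuous fun K : K0 n => MM (gau K) a b := by
  rw [continuous_iff_continuousAt]
  intro K
  obtain ⟨r, hr, h1⟩ := K0_ball K
  obtain ⟨R, hR, h2⟩ := K0_closedBall K
  have hK := gauge_gf hr hR K.1.convex h1 h2
  have hd : Tendsto (fun L : K0 n => dist K L) (𝓝 K) (𝓝 0) := by
    have : Continuous fun L : K0 n => dist K L := by fun_prop
    simpa using this.tendsto K
  have hev : ∀ᶠ L : K0 n in 𝓝 K, dist K L < r := hd.eventually_lt_const hr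
  refine tendsto_MM hK (fun L : K0 n => gau L) gau_gf (fun L => dist K L / (r - dist K L)) ?_ ?_ ?_
    a b
  · filter_upwards [hev] with L hL
    exact div_nonneg dist_nonneg (by linarith)
  · have : Tendsto (fun L : K0 n => dist K L / (r - dist K L)) (𝓝 K) (𝓝 (0 / (r - 0))) :=
      hd.div (tendsto_const_nhds.sub hd) (by simpa using hr.ne')
    simpa using this
  · filter_upwards [hev] with L hL
    obtain ⟨r', hr', h1'⟩ := K0_ball L
    obtain ⟨R', hR', h2'⟩ := K0_closedBall L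
    refine gauge_close hr hR hr' hR' K.1.convex L.1.convex h1 h2 h1' h2' dist_nonneg hL ?_ ?_
    · intro x hx
      exact exists_near K.1 L.1 x hx
    · intro x hx
      obtain ⟨y, hy, h⟩ := exists_near L.1 K.1 x hx
      refine ⟨y, hy, ?_⟩
      rw [dist_comm K L]
      exact h

/-- The curvature-tensor-valued functional. -/
noncomputable def mu {n : ℕ} [Nontrivial (V n)] (K : K0 n) : WW n :=
  ⟨fun p => MM (gau K) p.1 p.2, by
    obtain ⟨c, C, h⟩ := gau_gf K
    exact MM_mem h⟩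

theorem mu_apply {n : ℕ} [Nontrivial (V n)] (K : K0 n) (p : V n × V n) :
    (mu K : V n × V n → ℝ) p = MM (gau K) p.1 p.2 := rfl

theorem continuous_coord {n : ℕ} [Nontrivial (V n)] : Continuous fun K : K0 n => coordW n (mu K) := by
  have h1 : ∀ i, Continuous fun K : K0 n => (coordW n (mu K)) i := by
    intro i
    let φ : Module.Dual ℝ (WW n) := (EuclideanSpace.proj i).toLinearMap ∘ₗ (coordW n).toLinearMap
    obtain ⟨c, hc⟩ := exists_coord (WW n) φ
    have e : (fun K : K0 n => (coordW n (mu K)) i) =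
        fun K : K0 n => ∑ x ∈ c.support, c x * MM (gau K) x.1 x.2 := by
      funext K
      exact hc (mu K)
    rw [e]
    exact continuous_finsetSum _ fun x _ => (continuous_MM x.1 x.2).const_mul _
  have h2 : Continuous fun K : K0 n => fun i => (coordW n (mu K)) i := continuous_pi h1
  exact (PiLp.continuous_toLp 2 _).comp h2

theorem mu_valuation {n : ℕ} [Nontrivial (V n)] (K L M N : K0 n)
    (hM : (M.1 : Set (V n)) = (K.1 : Set (V n)) ∪ (L.1 : Set (V n)))
    (hN : (N.1 : Set (V n)) = (K.1 : Set (V n)) ∩ (L.1 : Set (V n))) :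
    mu M + mu N = mu K + mu L := by
  obtain ⟨c₁, C₁, h₁⟩ := gau_gf K
  obtain ⟨c₂, C₂, h₂⟩ := gau_gf L
  obtain ⟨c₃, C₃, h₃⟩ := gau_gf M
  obtain ⟨c₄, C₄, h₄⟩ := gau_gf N
  apply Subtype.ext
  funext p
  change MM (gau M) p.1 p.2 + MM (gau N) p.1 p.2 = MM (gau K) p.1 p.2 + MM (gau L) p.1 p.2
  refine MM_valuation h₁ h₂ h₃ h₄ (fun x => ?_) (fun x => ?_) p.1 p.2
  · unfold gau
    rw [hM]
    exact gauge_union K.1.convex L.1.convex (by rw [← hM]; exact M.1.convex) K.1.isClosed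
      L.1.isClosed (K0_nhds K) (K0_nhds L) x
  · unfold gau
    rw [hN]
    exact gauge_inter K.1.convex L.1.convex K.1.isClosed
      L.1.isClosed (K0_nhds K) (K0_nhds L) x

theorem mu_invariant {n : ℕ} [Nontrivial (V n)] (g : SL n) (K M : K0 n)
    (h : (M.1 : Set (V n)) = act g '' (K.1 : Set (V n))) : mu M = rho g (mu K) := by
  obtain ⟨c₁, C₁, h₁⟩ := gau_gf K
  obtain ⟨c₂, C₂, h₂⟩ := gau_gf M
  apply Subtype.ext
  funext p
  rw [rho_apply, mu_apply, mu_apply]
  have hg : ∀ x, gau M (actE g x) = gau K x := by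
    intro x
    unfold gau
    rw [h]
    exact gauge_image (actE g) _ x
  have e := MM_equiv (actE g) (det_actE g) h₂ h₁ hg (act g⁻¹ p.1) (act g⁻¹ p.2)
  rw [actE_apply, actE_apply, act_act_inv, act_act_inv] at e
  exact e

/-- The unit ball. -/
noncomputable def unitBall (n : ℕ) : K0 n :=
  ⟨⟨closedBall 0 1, convex_closedBall _ _, isCompact_closedBall _ _,
    ⟨0, mem_closedBall_self zero_le_one⟩⟩,
    mem_interior_iff_mem_nhds.2 (closedBall_mem_nhds _ one_pos)⟩

theorem gau_unitBall {n : ℕ} (x : V n) : gau (unitBall n) x = ‖x‖ := by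
  have h := gauge_closedBall (zero_le_one) x (E := V n)
  rw [div_one] at h
  exact h

theorem mu_unitBall_ne {n : ℕ} [Nontrivial (V n)] (hn : 2 ≤ n) : mu (unitBall n) ≠ 0 := by
  intro h
  have hF : F (gau (unitBall n)) = fun x => ‖x‖ ^ 2 / 2 := by
    funext x
    unfold F
    rw [gau_unitBall]
  have hs : Smooth2 (gau (unitBall n)) (fun x => innerSL ℝ x) (fun _ => innerSL ℝ) := by
    constructor
    · intro x
      rw [hF]
      have h1 := (hasStrictFDerivAt_norm_sq x).hasFDerivAt.const_mul (1 / 2 : ℝ)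
      refine (h1.congr_fderiv ?_).congr_of_eventuallyEq (Eventually.of_forall fun y => ?_)
      · ext y
        simp
      · simp only
        ring
    · intro x _
      exact (innerSL ℝ).hasFDerivAt
  obtain ⟨c, C, hg⟩ := gau_gf (unitBall n)
  set e0 : V n := ee ⟨0, by omega⟩ with he0
  set e1 : V n := ee ⟨1, by omega⟩ with he1
  have h1 := (MM_smooth hg hs e0 e1).2
  have h2 : MM (gau (unitBall n)) e0 e1 = 0 := by
    have := congrArg (fun f : WW n => (f : V n × V n → ℝ) (e0, e1)) h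
    exact this
  rw [h2] at h1
  have e00 : inner ℝ e0 e0 = (1 : ℝ) := by
    rw [he0, inner_ee, ee_apply, if_pos rfl]
  have e11 : inner ℝ e1 e1 = (1 : ℝ) := by
    rw [he1, inner_ee, ee_apply, if_pos rfl]
  have e01 : inner ℝ e0 e1 = (0 : ℝ) := by
    rw [he0, he1, inner_ee, ee_apply, if_neg (by simp)]
  have hm : MeasurableSet ({0}ᶜ : Set (V n)) := (measurableSet_singleton 0).compl
  have h0 : ({0}ᶜ : Set (V n)) =ᵐ[volume] (univ : Set (V n)) := by
    rw [ae_eq_univ, compl_compl]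
    exact measure_singleton 0
  have h3 : (0 : ℝ) = ∫ x : V n, Real.exp (-((1 * ‖x‖) ^ 2 / 2)) := by
    rw [h1, setIntegral_congr_set h0, setIntegral_univ]
    congr 1
    funext x
    change (inner ℝ e0 e0 * inner ℝ e1 e1 - (inner ℝ e0 e1) ^ 2) *
      Real.exp (-(F (gau (unitBall n)) x)) = _
    rw [e00, e11, e01, hF]
    ring_nf
  have h4 : 0 < ∫ x : V n, Real.exp (-((1 * ‖x‖) ^ 2 / 2)) :=
    integral_exp_pos (integrable_gauss 1 one_pos)
  rw [← h3] at h4
  exact lt_irrefl _ h4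

end Pool.Agent.Lib.MP_05553e_gt
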